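import Mathlib

/-! Statements used in the project FQ (few quadrics). -/

set_option autoImplicit false

namespace Pool.Agent.Helper66.FQ

open MvPolynomial

/-- Krull's height theorem in terms of generic points: let `x = (u, z)` be a generic point of an
irreducible component of the set defined by the `F i (u) = 0` and the `G j (u, z) = 0`. Then at least
`card τ - card κ₁` of the coordinates `z` are algebraically independent over `k(u)`. -/
def DimLower : Prop :=
  ∀ (k L : Type) [Field k] [Field L] [Algebra k L] (σ τ κ₀ κ₁ : Type) [Fintype σ] [Fintype τ]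
    [Fintype κ₀] [Fintype κ₁] (F : κ₀ → MvPolynomial σ k) (G : κ₁ → MvPolynomial (σ ⊕ τ) k)
    (x : σ ⊕ τ → L),
    RingHom.ker (aeval x : MvPolynomial (σ ⊕ τ) k →ₐ[k] L) ∈
      (Ideal.span (Set.range (Sum.elim (fun i => rename Sum.inl (F i)) G))).minimalPrimes →
    ∃ T : Finset τ, AlgebraicIndependent
        (IntermediateField.adjoin k (Set.range fun s : σ => x (Sum.inl s)))
        (fun i : T => x (Sum.inr i)) ∧
      Fintype.card τ ≤ T.card + Fintype.card κ₁

/-- Elimination of variables in which the equations are linear: let `x = (u, z, w)` be a generic point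
of an irreducible component of the set defined by `F i (u) = 0` and by `card ρ` equations
`A i (u, z) + ∑ a, M i a (u, z) w a = 0`, at which the determinant of `M` is not zero. Then
`k(x) = k(u)(z)` with `z` algebraically independent over `k(u)`, and `u` is a generic point of an
irreducible component of the set defined by the `F i`. -/
def LinElim : Prop :=
  ∀ (k L : Type) [Field k] [Field L] [Algebra k L] (σ τ κ₀ ρ : Type) [Fintype σ] [Fintype τ]
    [Fintype κ₀] [Fintype ρ] [DecidableEq ρ] (F : κ₀ → MvPolynomial σ k)
    (A : ρ → MvPolynomial (σ ⊕ τ) k) (M : ρ → ρ → MvPolynomial (σ ⊕ τ) k)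
    (x : σ ⊕ (τ ⊕ ρ) → L),
    RingHom.ker (aeval x : MvPolynomial (σ ⊕ (τ ⊕ ρ)) k →ₐ[k] L) ∈
      (Ideal.span (Set.range (Sum.elim (fun i => rename Sum.inl (F i))
        (fun i => rename (Sum.map id Sum.inl) (A i) +
          ∑ a, rename (Sum.map id Sum.inl) (M i a) * X (Sum.inr (Sum.inr a)))))).minimalPrimes →
    (Matrix.of fun i a => aeval (Sum.elim (fun s => x (Sum.inl s)) (fun t => x (Sum.inr (Sum.inl t))))
      (M i a)).det ≠ 0 →
    RingHom.ker (aeval (fun s => x (Sum.inl s)) : MvPolynomial σ k →ₐ[k] L) ∈
        (Ideal.span (Set.range F)).minimalPrimes ∧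
      AlgebraicIndependent (IntermediateField.adjoin k (Set.range fun s : σ => x (Sum.inl s)))
        (fun t : τ => x (Sum.inr (Sum.inl t))) ∧
      IntermediateField.adjoin k (Set.range x) = IntermediateField.adjoin k
        (Set.range (fun s : σ => x (Sum.inl s)) ∪ Set.range (fun t : τ => x (Sum.inr (Sum.inl t))))

end Pool.Agent.Helper66.FQ
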