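import Pool.Agent.Helper66.FQ.Rat

/-! Conclusions for function fields. -/

set_option autoImplicit false

namespace Pool.Agent.Helper66.FQ

open MvPolynomial IntermediateField

theorem concl {k L FF A' : Type} [Field k] [Field L] [Field FF] [CommRing A'] [Algebra k L]
    [Algebra k FF] [Algebra k A'] [Algebra A' FF] [IsFractionRing A' FF] [IsScalarTower k A' FF]
    {s m : ℕ} (x' : Fin s → A') (hx' : Algebra.adjoin k (Set.range x') = ⊤) (ψ : A' →ₐ[k] L)
    (hψ : Function.Injective ψ) (u : Fin s → L) (hu : ∀ j, ψ (x' j) = u j) (t : Fin m → L)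
    (ht : AlgebraicIndependent (adjoin k (Set.range u)) t)
    (hg : adjoin k (Set.range u ∪ Set.range t) = ⊤) :
    Nonempty (L ≃ₐ[k] RF m FF) ∧
      ((∃ d, Nonempty (L →ₐ[k] RF d k)) ↔ ∃ d, Nonempty (FF →ₐ[k] RF d k)) ∧
      ((∃ m' d, Nonempty (RF m' L ≃ₐ[k] RF d k)) ↔ ∃ m' d, Nonempty (RF m' FF ≃ₐ[k] RF d k)) ∧
      ((∃ d, Nonempty (FF ≃ₐ[k] RF d k)) → ∃ d, Nonempty (L ≃ₐ[k] RF d k)) := by
  let φ : FF →ₐ[k] L := IsFractionRing.liftAlgHom (K := FF) hψ
  let : Algebra FF L := φ.toRingHom.toAlgebra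
  have : IsScalarTower k FF L := IsScalarTower.of_algebraMap_eq fun a => (φ.commutes a).symm
  have h1 : PT m FF L := by
    refine pt_over (k := k) u (fun j => algebraMap A' FF (x' j)) (fun j => ?_) (gen_quot x' hx') t
      ht hg
    rw [← hu j]
    change φ (algebraMap A' FF (x' j)) = ψ (x' j)
    simp [φ]
  refine ⟨?_, uni_iff h1, sr_iff h1, rat_of h1⟩
  obtain ⟨e⟩ := h1.equiv
  exact ⟨e.restrictScalars k⟩

end Pool.Agent.Helper66.FQ
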