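import Pool.Agent.Helper66.FQ.Quad

/-! Linear changes of coordinates and generic points. -/

set_option autoImplicit false

namespace Pool.Agent.Helper66.FQ

open MvPolynomial

variable {k L : Type} [Field k] [Field L] [Algebra k L] {ι ι' : Type} [Fintype ι] [Fintype ι']
  [DecidableEq ι]

/-- the coordinates of the point `x` with respect to the basis `b` -/
noncomputable def newPt (b : Module.Basis ι' k (ι → k)) (x : ι → L) : ι' → L :=
  fun j => ∑ i, algebraMap k L (b.repr (Pi.single i 1) j) * x i

theorem sum_repr (b : Module.Basis ι' k (ι → k)) (i i' : ι) :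
    ∑ j, b.repr (Pi.single i 1) j * b j i' = if i = i' then 1 else 0 := by
  have h := congrFun (b.sum_repr (Pi.single i 1)) i'
  rw [Finset.sum_apply] at h
  simp only [Pi.smul_apply, smul_eq_mul] at h
  rw [h, Pi.single_apply]
  simp only [eq_comm]

theorem repr_sum [DecidableEq ι'] (b : Module.Basis ι' k (ι → k)) (j j' : ι') :
    ∑ i, b j' i * b.repr (Pi.single i 1) j = if j' = j then 1 else 0 := by
  have h1 : b j' = ∑ i, b j' i • (Pi.single i (1 : k) : ι → k) := by
    funext i
    simp [Finset.sum_apply, Pi.single_apply]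
  have h2 := b.repr_self_apply j' j
  rw [h1, map_sum, Finsupp.finsetSum_apply] at h2
  rw [← h2]
  refine Finset.sum_congr rfl fun i _ => ?_
  rw [map_smul, Finsupp.smul_apply, smul_eq_mul]

theorem pt_eq (b : Module.Basis ι' k (ι → k)) (x : ι → L) (i : ι) :
    x i = ∑ j, algebraMap k L (b j i) * newPt b x j := by
  simp only [newPt, Finset.mul_sum]
  rw [Finset.sum_comm]
  rw [Finset.sum_eq_single i]
  · rw [Finset.sum_congr rfl fun j _ => (mul_assoc _ _ _).symm, ← Finset.sum_mul]
    have h := congrArg (algebraMap k L) (sum_repr b i i)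
    rw [map_sum, if_pos rfl, map_one] at h
    rw [Finset.sum_congr rfl fun j _ => by rw [mul_comm (algebraMap k L (b j i)), ← map_mul], h,
      one_mul]
  · intro i' _ hi'
    rw [Finset.sum_congr rfl fun j _ => (mul_assoc _ _ _).symm, ← Finset.sum_mul]
    have h := congrArg (algebraMap k L) (sum_repr b i' i)
    rw [map_sum, if_neg hi', map_zero] at h
    rw [Finset.sum_congr rfl fun j _ => by rw [mul_comm (algebraMap k L (b j i)), ← map_mul], h,
      zero_mul]
  · simp

theorem aeval_subst (b : Module.Basis ι' k (ι → k)) (x : ι → L) (g : MvPolynomial ι k) :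
    aeval (newPt b x) (subst b g) = aeval x g := by
  have : (aeval (newPt b x)).comp (subst b) = aeval (R := k) x := by
    apply MvPolynomial.algHom_ext
    intro i
    simp only [subst, AlgHom.comp_apply, aeval_X, map_sum, map_mul, algHom_C]
    exact (pt_eq b x i).symm
  exact congrArg (fun f => f g) this

/-- the substitution is an isomorphism -/
noncomputable def substEquiv (b : Module.Basis ι' k (ι → k)) :
    MvPolynomial ι k ≃ₐ[k] MvPolynomial ι' k :=
  AlgEquiv.ofAlgHom (subst b) (subst fun i j => b.repr (Pi.single i 1) j) (by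
    classical
    apply MvPolynomial.algHom_ext
    intro j
    simp only [subst, AlgHom.comp_apply, aeval_X, map_sum, map_mul, algHom_C, algebraMap_eq,
      AlgHom.id_apply, Finset.mul_sum]
    rw [Finset.sum_comm, Finset.sum_eq_single j]
    · rw [Finset.sum_congr rfl fun i _ => (mul_assoc _ _ _).symm, ← Finset.sum_mul]
      have h := congrArg (C : k → MvPolynomial ι' k) (repr_sum b j j)
      rw [map_sum, if_pos rfl, map_one] at h
      rw [Finset.sum_congr rfl fun i _ => by rw [← map_mul, mul_comm], h, one_mul]
    · intro j' _ hj'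
      rw [Finset.sum_congr rfl fun i _ => (mul_assoc _ _ _).symm, ← Finset.sum_mul]
      have h := congrArg (C : k → MvPolynomial ι' k) (repr_sum b j j')
      rw [map_sum, if_neg hj', map_zero] at h
      rw [Finset.sum_congr rfl fun i _ => by rw [← map_mul, mul_comm], h, zero_mul]
    · simp) (by
    apply MvPolynomial.algHom_ext
    intro i
    simp only [subst, AlgHom.comp_apply, aeval_X, map_sum, map_mul, algHom_C, algebraMap_eq,
      AlgHom.id_apply, Finset.mul_sum]
    rw [Finset.sum_comm, Finset.sum_eq_single i]
    · rw [Finset.sum_congr rfl fun j _ => (mul_assoc _ _ _).symm, ← Finset.sum_mul]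
      have h := congrArg (C : k → MvPolynomial ι k) (sum_repr b i i)
      rw [map_sum, if_pos rfl, map_one] at h
      rw [Finset.sum_congr rfl fun j _ => by rw [← map_mul, mul_comm], h, one_mul]
    · intro i' _ hi'
      rw [Finset.sum_congr rfl fun j _ => (mul_assoc _ _ _).symm, ← Finset.sum_mul]
      have h := congrArg (C : k → MvPolynomial ι k) (sum_repr b i' i)
      rw [map_sum, if_neg hi', map_zero] at h
      rw [Finset.sum_congr rfl fun j _ => by rw [← map_mul, mul_comm], h, zero_mul]
    · simp)

theorem substEquiv_apply (b : Module.Basis ι' k (ι → k)) (g : MvPolynomial ι k) :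
    substEquiv b g = subst b g := rfl

theorem minimal_subst (b : Module.Basis ι' k (ι → k)) (x : ι → L) {κ : Type}
    (f : κ → MvPolynomial ι k)
    (hP : RingHom.ker (aeval x : MvPolynomial ι k →ₐ[k] L) ∈
      (Ideal.span (Set.range f)).minimalPrimes) :
    RingHom.ker (aeval (newPt b x) : MvPolynomial ι' k →ₐ[k] L) ∈
      (Ideal.span (Set.range fun i => subst b (f i))).minimalPrimes := by
  let e := substEquiv b
  have hs : Function.Surjective (e.symm : MvPolynomial ι' k →+* MvPolynomial ι k) :=
    e.symm.surjective
  have h1 := Ideal.comap_minimalPrimes_eq_of_surjective hs (Ideal.span (Set.range f))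
  have h2 : (Ideal.span (Set.range f)).comap (e.symm : MvPolynomial ι' k →+* MvPolynomial ι k) =
      Ideal.span (Set.range fun i => subst b (f i)) := by
    have h3 : (Ideal.span (Set.range f)).comap (e.symm : MvPolynomial ι' k →+* MvPolynomial ι k) =
        (Ideal.span (Set.range f)).map (e : MvPolynomial ι k →+* MvPolynomial ι' k) :=
      (Ideal.map_comap_of_equiv (e : MvPolynomial ι k ≃+* MvPolynomial ι' k)).symm
    rw [h3, Ideal.map_span, ← Set.range_comp]
    rfl
  rw [h2] at h1
  rw [h1]
  refine ⟨_, hP, ?_⟩
  ext g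
  rw [Ideal.mem_comap, RingHom.mem_ker, RingHom.mem_ker]
  have h4 : aeval (newPt b x) g = aeval x (e.symm g) := by
    rw [← aeval_subst b x (e.symm g)]
    congr 1
    exact (e.apply_symm_apply g).symm
  change aeval x (e.symm g) = 0 ↔ aeval (newPt b x) g = 0
  rw [h4]

theorem adjoin_newPt (b : Module.Basis ι' k (ι → k)) (x : ι → L) :
    IntermediateField.adjoin k (Set.range (newPt b x)) = IntermediateField.adjoin k (Set.range x)
    := by
  apply le_antisymm
  · rw [IntermediateField.adjoin_le_iff]
    rintro _ ⟨j, rfl⟩
    refine sum_mem fun i _ => mul_mem (IntermediateField.algebraMap_mem _ _)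
      (IntermediateField.subset_adjoin _ _ ⟨i, rfl⟩)
  · rw [IntermediateField.adjoin_le_iff]
    rintro _ ⟨i, rfl⟩
    rw [pt_eq b x i]
    refine sum_mem fun j _ => mul_mem (IntermediateField.algebraMap_mem _ _)
      (IntermediateField.subset_adjoin _ _ ⟨j, rfl⟩)

end Pool.Agent.Helper66.FQ
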