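import Pool.Agent.Helper66.FQ.Gen
import Pool.Agent.Helper66.FQ.Coord

/-! Elimination of the variables of the isotropic subspace. -/

set_option autoImplicit false

namespace Pool.Agent.Helper66.FQ

open MvPolynomial

section lin

variable {k : Type} [Field k] {σ τ ρ : Type} [Fintype σ] [Fintype τ] [Fintype ρ]

/-- the embedding of the other variables -/
abbrev emb (σ τ ρ : Type) : σ ⊕ τ → σ ⊕ (τ ⊕ ρ) := Sum.map id Sum.inl

theorem sum_emb {M : Type} [AddCommMonoid M] (f : σ ⊕ (τ ⊕ ρ) → M) :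
    ∑ i, f i = ∑ p : σ ⊕ τ, f (emb σ τ ρ p) + ∑ a, f (Sum.inr (Sum.inr a)) := by
  simp only [Fintype.sum_sum_type, Sum.map_inl, id_eq, Sum.map_inr, add_assoc]

/-- the coefficients of the linear part -/
noncomputable def linM (A : Matrix (σ ⊕ (τ ⊕ ρ)) (σ ⊕ (τ ⊕ ρ)) k) (l : σ ⊕ (τ ⊕ ρ) → k) (a : ρ) :
    MvPolynomial (σ ⊕ τ) k :=
  ∑ p : σ ⊕ τ, C (2 * A (emb σ τ ρ p) (Sum.inr (Sum.inr a))) * X p + C (l (Sum.inr (Sum.inr a)))

theorem quad_lin (A : Matrix (σ ⊕ (τ ⊕ ρ)) (σ ⊕ (τ ⊕ ρ)) k) (l : σ ⊕ (τ ⊕ ρ) → k) (c : k)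
    (hA : A.IsSymm) (h0 : ∀ a b, A (Sum.inr (Sum.inr a)) (Sum.inr (Sum.inr b)) = 0) :
    quad A l c = rename (emb σ τ ρ) (quad (A.submatrix (emb σ τ ρ) (emb σ τ ρ))
      (l ∘ emb σ τ ρ) c) + ∑ a, rename (emb σ τ ρ) (linM A l a) * X (Sum.inr (Sum.inr a)) := by
  have hs : ∀ p q, A p q = A q p := fun p q => hA.apply q p
  simp only [quad, linM, map_add, map_sum, map_mul, rename_C, rename_X, Matrix.submatrix_apply,
    Function.comp]
  rw [sum_emb (fun i => ∑ j, C (A i j) * X i * X j), sum_emb (fun i => C (l i) * X i)]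
  rw [Finset.sum_congr rfl fun p _ => sum_emb (fun j => C (A (emb σ τ ρ p) j) *
    X (emb σ τ ρ p) * X j)]
  rw [Finset.sum_congr rfl fun a _ => sum_emb (fun j => C (A (Sum.inr (Sum.inr a)) j) *
    X (Sum.inr (Sum.inr a)) * X j)]
  have h1 : ∀ a : ρ, ∑ b, C (A (Sum.inr (Sum.inr a)) (Sum.inr (Sum.inr b))) *
      X (Sum.inr (Sum.inr a)) * (X (Sum.inr (Sum.inr b)) : MvPolynomial (σ ⊕ (τ ⊕ ρ)) k) = 0 := by
    intro a
    refine Finset.sum_eq_zero fun b _ => ?_
    rw [h0, map_zero, zero_mul, zero_mul]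
  simp only [h1, add_zero]
  simp only [Finset.sum_add_distrib, add_mul, Finset.sum_mul]
  have h2 : ∑ p : σ ⊕ τ, ∑ a : ρ, C (A (emb σ τ ρ p) (Sum.inr (Sum.inr a))) * X (emb σ τ ρ p) *
      (X (Sum.inr (Sum.inr a)) : MvPolynomial (σ ⊕ (τ ⊕ ρ)) k) =
      ∑ a : ρ, ∑ p : σ ⊕ τ, C (A (Sum.inr (Sum.inr a)) (emb σ τ ρ p)) * X (Sum.inr (Sum.inr a)) *
        X (emb σ τ ρ p) := by
    rw [Finset.sum_comm]
    refine Finset.sum_congr rfl fun a _ => Finset.sum_congr rfl fun p _ => ?_
    rw [hs (emb σ τ ρ p)]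
    ring
  have h3 : ∑ a : ρ, ∑ p : σ ⊕ τ, C 2 * C (A (emb σ τ ρ p) (Sum.inr (Sum.inr a))) *
      X (emb σ τ ρ p) * (X (Sum.inr (Sum.inr a)) : MvPolynomial (σ ⊕ (τ ⊕ ρ)) k) =
      ∑ a : ρ, ∑ p : σ ⊕ τ, C (A (Sum.inr (Sum.inr a)) (emb σ τ ρ p)) * X (Sum.inr (Sum.inr a)) *
        X (emb σ τ ρ p) + ∑ a : ρ, ∑ p : σ ⊕ τ, C (A (Sum.inr (Sum.inr a)) (emb σ τ ρ p)) *
          X (Sum.inr (Sum.inr a)) * X (emb σ τ ρ p) := by
    simp only [← Finset.sum_add_distrib]
    refine Finset.sum_congr rfl fun a _ => Finset.sum_congr rfl fun p _ => ?_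
    rw [hs (emb σ τ ρ p), map_ofNat]
    ring
  rw [h2, h3]
  ring

end lin

theorem dq_eq {k L ι : Type} [Field k] [Field L] [Algebra k L] [Fintype ι] [DecidableEq ι]
    {ι' : Type} [Fintype ι'] (A : Matrix ι ι k) (l : ι → k) (b : Module.Basis ι' k (ι → k))
    (x : ι → L) (v : ι → k) : dq A l x v = 2 * ∑ q, algebraMap k L (b q ⬝ᵥ A.mulVec v) *
      newPt b x q + algebraMap k L (l ⬝ᵥ v) := by
  have h1 : dq A l x v = 2 * ∑ p, algebraMap k L (A.mulVec v p) * x p +
      algebraMap k L (l ⬝ᵥ v) := by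
    simp only [dq, mul_add, Finset.sum_add_distrib, dotProduct, map_sum, map_mul, Matrix.mulVec,
      Finset.mul_sum, Finset.sum_mul]
    congr 1
    · rw [Finset.sum_comm]
      refine Finset.sum_congr rfl fun p _ => Finset.sum_congr rfl fun j _ => ?_
      ring
    · exact Finset.sum_congr rfl fun j _ => mul_comm _ _
  rw [h1]
  congr 2
  rw [Finset.sum_congr rfl fun p _ => by rw [pt_eq b x p]]
  simp only [dotProduct, map_sum, map_mul, Finset.mul_sum, Finset.sum_mul]
  rw [Finset.sum_comm]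
  refine Finset.sum_congr rfl fun q _ => Finset.sum_congr rfl fun p _ => ?_
  ring

theorem dq_lin {k L ι : Type} [Field k] [Field L] [Algebra k L] [Fintype ι] {ρ : Type} [Fintype ρ]
    (A : Matrix ι ι k) (l : ι → k) (x : ι → L) (v : ρ → ι → k) (c : ρ → k) :
    dq A l x (∑ a, c a • v a) = ∑ a, algebraMap k L (c a) * dq A l x (v a) := by
  simp only [dq, Finset.sum_apply, Pi.smul_apply, smul_eq_mul, map_sum, map_mul, Finset.sum_mul,
    Finset.mul_sum]
  rw [Finset.sum_comm]
  refine Finset.sum_congr rfl fun a _ => Finset.sum_congr rfl fun j _ => ?_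
  ring

theorem sumExtend_inl {K V ι : Type} [Field K] [AddCommGroup V] [Module K V] {v : ι → V}
    (hs : LinearIndependent K v) (i : ι) : Module.Basis.sumExtend hs (Sum.inl i) = v i := by
  unfold Module.Basis.sumExtend
  rw [Module.Basis.reindex_apply, Module.Basis.extend_apply_self]
  rfl

/-- elimination -/
theorem stageB (DL : DimLower) (LE : LinElim) {k L : Type} [Field k] [IsAlgClosed k] [Field L]
    [Algebra k L] (h2 : (2 : k) ≠ 0) {σ τ κ₀ ρ : Type} [Fintype σ] [Fintype τ] [Fintype κ₀]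
    [Fintype ρ] (F : κ₀ → MvPolynomial σ k) (A : ρ → Matrix (σ ⊕ τ) (σ ⊕ τ) k)
    (hA : ∀ i, (A i).IsSymm) (l : ρ → σ ⊕ τ → k) (c : ρ → k) (x : σ ⊕ τ → L)
    (hP : RingHom.ker (aeval x : MvPolynomial (σ ⊕ τ) k →ₐ[k] L) ∈
      (Ideal.span (Set.range (Sum.elim (fun i => rename Sum.inl (F i))
        fun i => quad (A i) (l i) (c i)))).minimalPrimes)
    (R : ℕ) (hR : ∀ u : ρ → k, u ≠ 0 → R ≤ (∑ i, u i • (A i).toBlocks₂₂).rank)
    (hcard : Fintype.card ρ + (Fintype.card ρ + 1) * (2 * Fintype.card ρ) ≤ R + 1) :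
    RingHom.ker (aeval (fun s => x (Sum.inl s)) : MvPolynomial σ k →ₐ[k] L) ∈
        (Ideal.span (Set.range F)).minimalPrimes ∧
      ∃ (m : ℕ) (t : Fin m → L), AlgebraicIndependent
          (IntermediateField.adjoin k (Set.range fun s : σ => x (Sum.inl s))) t ∧
        IntermediateField.adjoin k (Set.range x) = IntermediateField.adjoin k
          (Set.range (fun s : σ => x (Sum.inl s)) ∪ Set.range t) := by
  classical
  obtain ⟨w, hw, hdet⟩ := stageA DL h2 F A hA l c x hP R hR hcard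
  have hwli : LinearIndependent k w := by
    rw [Fintype.linearIndependent_iff]
    intro c' hc'
    have h1 : (Matrix.of fun i a => dq (A i) (l i) x (Sum.elim 0 (w a))).mulVec
        (fun a => algebraMap k L (c' a)) = 0 := by
      funext i
      simp only [Matrix.mulVec, dotProduct, Matrix.of_apply, Pi.zero_apply]
      rw [Finset.sum_congr rfl fun a _ => mul_comm _ _, ← dq_lin (A i) (l i) x
        (fun a => (Sum.elim 0 (w a) : σ ⊕ τ → k)) c']
      have h2 : ∑ a, c' a • (Sum.elim 0 (w a) : σ ⊕ τ → k) = 0 := by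
        funext p
        rcases p with s | t
        · simp [Finset.sum_apply]
        · have := congrFun hc' t
          simpa [Finset.sum_apply] using this
      rw [h2]
      simp [dq]
    have h3 := Matrix.eq_zero_of_mulVec_eq_zero hdet h1
    intro a
    have h4 := congrFun h3 a
    exact (map_eq_zero _).1 h4
  -- an adapted basis
  let τ' : Type := Module.Basis.sumExtendIndex hwli
  let b0 : Module.Basis (ρ ⊕ τ') k (τ → k) := Module.Basis.sumExtend hwli
  have : Finite (ρ ⊕ τ') := Module.Finite.finite_basis b0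
  have : Finite τ' := Finite.of_injective (Sum.inr : τ' → ρ ⊕ τ') Sum.inr_injective
  have := Fintype.ofFinite τ'
  let b1 : Module.Basis (τ' ⊕ ρ) k (τ → k) := b0.reindex (Equiv.sumComm ρ τ')
  have hb1 : ∀ a, b1 (Sum.inr a) = w a := by
    intro a
    rw [Module.Basis.reindex_apply]
    exact sumExtend_inl hwli a
  let b2 : Module.Basis (σ ⊕ (τ' ⊕ ρ)) k (σ ⊕ τ → k) :=
    ((Pi.basisFun k σ).prod b1).map (LinearEquiv.sumArrowLequivProdArrow σ τ k k).symm
  have hb2l : ∀ s, b2 (Sum.inl s) = (Sum.elim (Pi.single s (1 : k)) (0 : τ → k) :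
      σ ⊕ τ → k) := by
    intro s
    funext p
    rcases p with p | p
    · simp [b2, Module.Basis.map_apply, LinearEquiv.sumArrowLequivProdArrow_symm_apply_inl]
    · simp [b2, Module.Basis.map_apply, LinearEquiv.sumArrowLequivProdArrow_symm_apply_inr]
  have hb2r : ∀ j, b2 (Sum.inr j) = (Sum.elim (0 : σ → k) (b1 j) : σ ⊕ τ → k) := by
    intro s
    funext p
    rcases p with p | p
    · simp [b2, Module.Basis.map_apply, LinearEquiv.sumArrowLequivProdArrow_symm_apply_inl]
    · simp [b2, Module.Basis.map_apply, LinearEquiv.sumArrowLequivProdArrow_symm_apply_inr]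
  let y := newPt b2 x
  have hyl : ∀ s, y (Sum.inl s) = x (Sum.inl s) := by
    intro s
    rw [pt_eq b2 x (Sum.inl s), Fintype.sum_sum_type, Finset.sum_eq_single s]
    · rw [Finset.sum_eq_zero (s := Finset.univ) (f := fun j : τ' ⊕ ρ => _)]
      · rw [hb2l]
        simp [y]
      · intro j _
        rw [hb2r]
        simp
    · intro s' _ hs'
      rw [hb2l]
      simp [Pi.single_eq_of_ne' hs']
    · simp
  have hF : ∀ f : MvPolynomial σ k, subst b2 (rename Sum.inl f) = rename Sum.inl f := by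
    intro f
    have : (subst b2).comp (rename Sum.inl) = (rename Sum.inl : MvPolynomial σ k →ₐ[k] _) := by
      apply MvPolynomial.algHom_ext
      intro s
      simp only [AlgHom.comp_apply, rename_X, subst, aeval_X]
      rw [Fintype.sum_sum_type, Finset.sum_eq_single s]
      · rw [Finset.sum_eq_zero (s := Finset.univ) (f := fun j : τ' ⊕ ρ => _)]
        · rw [hb2l]
          simp
        · intro j _
          rw [hb2r]
          simp
      · intro s' _ hs'
        rw [hb2l]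
        simp [Pi.single_eq_of_ne' hs']
      · simp
    exact congrArg (fun g => g f) this
  let A' : ρ → Matrix (σ ⊕ (τ' ⊕ ρ)) (σ ⊕ (τ' ⊕ ρ)) k := fun i =>
    Matrix.of fun j j' => b2 j ⬝ᵥ (A i).mulVec (b2 j')
  let l' : ρ → σ ⊕ (τ' ⊕ ρ) → k := fun i j => l i ⬝ᵥ b2 j
  have hA' : ∀ i, (A' i).IsSymm := by
    intro i
    ext j j'
    simp only [Matrix.transpose_apply, A', Matrix.of_apply]
    rw [Matrix.dotProduct_mulVec, ← Matrix.mulVec_transpose, (hA i).eq, dotProduct_comm]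
  have hbw : ∀ a, b2 (Sum.inr (Sum.inr a)) = (Sum.elim (0 : σ → k) (w a) : σ ⊕ τ → k) :=
    fun a => by rw [hb2r, hb1]
  have hA'0 : ∀ i a b, A' i (Sum.inr (Sum.inr a)) (Sum.inr (Sum.inr b)) = 0 := by
    intro i a b
    simp only [A', Matrix.of_apply, hbw]
    rw [← hw i a b]
    simp only [dotProduct, Matrix.mulVec, Fintype.sum_sum_type, Sum.elim_inl, Pi.zero_apply,
      zero_mul, mul_zero, Finset.sum_const_zero, zero_add, Sum.elim_inr, Matrix.toBlocks₂₂,
      Matrix.of_apply]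
  have hmin := minimal_subst b2 x _ hP
  have heq : (fun i => subst b2 (Sum.elim (fun i => rename Sum.inl (F i))
      (fun i => quad (A i) (l i) (c i)) i)) = Sum.elim (fun i => rename Sum.inl (F i))
        (fun i => rename (Sum.map id Sum.inl) (quad ((A' i).submatrix (emb σ τ' ρ) (emb σ τ' ρ))
          (l' i ∘ emb σ τ' ρ) (c i)) +
          ∑ a, rename (Sum.map id Sum.inl) (linM (A' i) (l' i) a) * X (Sum.inr (Sum.inr a))) := by
    funext i
    rcases i with i | i
    · simp only [Sum.elim_inl]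
      exact hF _
    · simp only [Sum.elim_inr]
      rw [subst_quad]
      exact quad_lin (A' i) (l' i) (c i) (hA' i) (hA'0 i)
  rw [heq] at hmin
  have hM : (Matrix.of fun i a => aeval (Sum.elim (fun s => y (Sum.inl s))
      (fun t => y (Sum.inr (Sum.inl t)))) (linM (A' i) (l' i) a)) =
      Matrix.of fun i a => dq (A i) (l i) x (Sum.elim 0 (w a)) := by
    ext i a
    simp only [Matrix.of_apply]
    rw [dq_eq (A i) (l i) b2 x, ← hbw]
    simp only [linM, map_add, map_sum, map_mul, algHom_C, aeval_X, map_ofNat]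
    rw [sum_emb (fun q => algebraMap k L (b2 q ⬝ᵥ (A i).mulVec (b2 (Sum.inr (Sum.inr a)))) *
      newPt b2 x q)]
    rw [Finset.sum_eq_zero (s := (Finset.univ : Finset ρ))]
    · rw [add_zero, Finset.mul_sum]
      congr 1
      refine Finset.sum_congr rfl fun p _ => ?_
      rw [mul_assoc]
      congr 2
      rcases p with p | p <;> rfl
    · intro b _
      have := hA'0 i b a
      simp only [A', Matrix.of_apply] at this
      rw [this, map_zero, zero_mul]
  obtain ⟨h5, h6, h7⟩ := LE k L σ τ' κ₀ ρ F _ _ y hmin (by rw [hM]; exact hdet)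
  have hfun : (fun s : σ => y (Sum.inl s)) = fun s => x (Sum.inl s) := funext hyl
  rw [hfun] at h5 h6 h7
  refine ⟨h5, Fintype.card τ', (fun t => y (Sum.inr (Sum.inl t))) ∘ (Fintype.equivFin τ').symm,
    ?_, ?_⟩
  · exact h6.comp _ (Fintype.equivFin τ').symm.injective
  · rw [EquivLike.range_comp, ← h7]
    exact (adjoin_newPt b2 x).symm

end Pool.Agent.Helper66.FQ
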