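import Mathlib

/-! Upper bounds for the transcendence degree of solutions of linear systems. -/

set_option autoImplicit false

namespace Pool.Agent.Helper66.FQ

open Cardinal IntermediateField

/-- independent columns -/
theorem exists_cols {F m n δ : Type*} [Field F] [Fintype m] [Fintype n] [Fintype δ]
    (M : Matrix m n F) (h : Fintype.card δ ≤ M.rank) :
    ∃ J : δ → n, Function.Injective J ∧ LinearIndependent F (fun r : δ => M.col (J r)) := by
  obtain ⟨κ, a, ha, hsp, hli⟩ := exists_linearIndependent' F M.col
  have : Finite κ := Finite.of_injective a ha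
  have := Fintype.ofFinite κ
  have h1 : Fintype.card κ = M.rank := by
    rw [M.rank_eq_finrank_span_cols, ← hsp]
    exact (finrank_span_eq_card hli).symm
  have h2 : Fintype.card δ ≤ Fintype.card κ := h.trans h1.ge
  obtain ⟨e⟩ := Function.Embedding.nonempty_of_card_le h2
  exact ⟨a ∘ e, ha.comp e.injective, hli.comp e e.injective⟩

/-- independent rows -/
theorem exists_rows {F m n δ : Type*} [Field F] [Fintype m] [Fintype n] [Fintype δ]
    (M : Matrix m n F) (h : Fintype.card δ ≤ M.rank) :
    ∃ J : δ → m, Function.Injective J ∧ LinearIndependent F (fun r : δ => M.row (J r)) := by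
  obtain ⟨J, hJ, h1⟩ := exists_cols (δ := δ) M.transpose (by rwa [Matrix.rank_transpose])
  exact ⟨J, hJ, h1⟩

/-- a nonzero maximal minor -/
theorem exists_minor {F δ τ : Type*} [Field F] [Fintype δ] [DecidableEq δ] [Fintype τ]
    (M : Matrix δ τ F) (h : LinearIndependent F M.row) :
    ∃ J : δ → τ, Function.Injective J ∧ (M.submatrix id J).det ≠ 0 := by
  have hr : M.rank = Fintype.card δ := h.rank_matrix
  obtain ⟨J, hJ, h1⟩ := exists_cols (δ := δ) M hr.ge
  refine ⟨J, hJ, ?_⟩
  have h2 : LinearIndependent F (M.submatrix id J).col := h1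
  rw [Matrix.linearIndependent_cols_iff_isUnit, Matrix.isUnit_iff_isUnit_det] at h2
  exact h2.ne_zero

/-- a nonzero maximal minor gives independent rows -/
theorem rows_of_minor {F δ τ : Type*} [Field F] [Fintype δ] [DecidableEq δ]
    (M : Matrix δ τ F) (J : δ → τ) (h : (M.submatrix id J).det ≠ 0) :
    LinearIndependent F M.row := by
  have h2 : LinearIndependent F (M.submatrix id J).row := by
    rw [Matrix.linearIndependent_rows_iff_isUnit, Matrix.isUnit_iff_isUnit_det]
    exact isUnit_iff_ne_zero.2 h
  let f : (τ → F) →ₗ[F] (δ → F) := LinearMap.funLeft F F J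
  exact LinearIndependent.of_comp f h2

variable {K Ω : Type} [Field K] [Field Ω] [Algebra K Ω]

/-- a family algebraically independent in a field generated by `d` elements has at most `d`
members -/
theorem card_le_of_gen {T S : Type} [Fintype T] [Fintype S] (y : S → Ω) (x : T → Ω)
    (hx : AlgebraicIndependent K x) (h : ∀ t, x t ∈ adjoin K (Set.range y)) :
    Fintype.card T ≤ Fintype.card S := by
  open scoped IntermediateField.algebraAdjoinAdjoin in
  have h1 : Algebra.trdeg K (adjoin K (Set.range y)) =
      Algebra.trdeg K (Algebra.adjoin K (Set.range y)) := by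
    have h0 : Algebra.trdeg (Algebra.adjoin K (Set.range y)) (adjoin K (Set.range y)) = 0 :=
      (trdeg_eq_zero_iff).2 inferInstance
    rw [← trdeg_add_eq K (Algebra.adjoin K (Set.range y)), h0, add_zero]
  have h2 := trdeg_le_of_surjective
    ((MvPolynomial.aeval (fun s : S => (⟨y s, Algebra.subset_adjoin ⟨s, rfl⟩⟩ :
      Algebra.adjoin K (Set.range y))) :
      MvPolynomial S K →ₐ[K] Algebra.adjoin K (Set.range y))) (by
    rintro ⟨z, hz⟩
    rw [Algebra.adjoin_range_eq_range_aeval] at hz
    obtain ⟨p, hp⟩ := hz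
    refine ⟨p, Subtype.ext ?_⟩
    have : ((Algebra.adjoin K (Set.range y)).val).comp
      (MvPolynomial.aeval (fun s : S => (⟨y s, Algebra.subset_adjoin ⟨s, rfl⟩⟩ :
        Algebra.adjoin K (Set.range y)))) = MvPolynomial.aeval y := by
      ext i; simp
    exact (congrArg (fun f => f p) this).trans hp)
  have hx' : AlgebraicIndependent K (fun t : T => (⟨x t, h t⟩ : adjoin K (Set.range y))) :=
    AlgebraicIndependent.of_comp ((adjoin K (Set.range y)).val) hx
  have h3 := hx'.cardinalMk_le_trdeg
  rw [h1] at h3
  rw [MvPolynomial.trdeg_of_isDomain] at h2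
  simp only [mk_fintype, lift_natCast] at h2 h3
  exact_mod_cast h3.trans h2

/-- Solutions of linear systems: if `z` solves a linear system of `card δ` independent equations
with coefficients in `K(θ)`, then at most `card τ + card Θ - card δ` of the coordinates of `z` are
algebraically independent over `K`. -/
theorem upper {τ δ Θ : Type} [Fintype τ] [Fintype δ] [DecidableEq δ] [Fintype Θ] (z : τ → Ω)
    (θ : Θ → Ω) (M : Matrix δ τ Ω) (b : δ → Ω)
    (hM : ∀ a j, M a j ∈ adjoin K (Set.range θ)) (hb : ∀ a, b a ∈ adjoin K (Set.range θ))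
    (hz : M.mulVec z = b) (hrow : LinearIndependent Ω M.row) (T : Finset τ)
    (hT : AlgebraicIndependent K (fun i : T => z i)) :
    T.card + Fintype.card δ ≤ Fintype.card Θ + Fintype.card τ := by
  classical
  obtain ⟨J, hJ, hdet⟩ := exists_minor M hrow
  -- the other coordinates
  let τ' := {j : τ // j ∉ Set.range J}
  have hcard : Fintype.card τ' + Fintype.card δ = Fintype.card τ := by
    have h1 := Fintype.card_subtype_compl (fun j : τ => j ∈ Set.range J)
    have h2 : Fintype.card {j : τ // j ∈ Set.range J} = Fintype.card δ :=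
      Fintype.card_congr (Equiv.ofInjective J hJ).symm
    have h3 : Fintype.card {j : τ // j ∈ Set.range J} ≤ Fintype.card τ :=
      Fintype.card_subtype_le _
    have h4 : Fintype.card τ' = Fintype.card {j : τ // ¬ j ∈ Set.range J} := rfl
    omega
  let y : Θ ⊕ τ' → Ω := Sum.elim θ (fun j => z j)
  let E := adjoin K (Set.range y)
  have hθE : adjoin K (Set.range θ) ≤ E := by
    apply adjoin.mono
    rintro _ ⟨t, rfl⟩
    exact ⟨Sum.inl t, rfl⟩
  have hzE : ∀ j : τ', z j ∈ E := fun j => subset_adjoin _ _ ⟨Sum.inr j, rfl⟩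
  -- matrices over `E`
  let M' : Matrix δ δ E := Matrix.of fun a c => ⟨M a (J c), hθE (hM a (J c))⟩
  have hM' : M'.map (algebraMap E Ω) = M.submatrix id J := rfl
  have hdet' : IsUnit M'.det := by
    rw [isUnit_iff_ne_zero]
    intro h0
    apply hdet
    rw [← hM']
    have : (M'.map (algebraMap E Ω)).det = algebraMap E Ω M'.det := by
      rw [RingHom.map_det]; rfl
    rw [this, h0, map_zero]
  let b' : δ → E := fun a => ⟨b a, hθE (hb a)⟩ - ∑ j : τ', ⟨M a j, hθE (hM a j)⟩ * ⟨z j, hzE j⟩
  have h5 : (M'.map (algebraMap E Ω)).mulVec (fun c => z (J c)) = fun a => algebraMap E Ω (b' a) := by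
    funext a
    have h6 := congrFun hz a
    simp only [Matrix.mulVec, dotProduct] at h6 ⊢
    have h7 : ∑ j : τ, M a j * z j = ∑ c : δ, M a (J c) * z (J c) + ∑ j : τ', M a j * z j := by
      rw [← Fintype.sum_subtype_add_sum_subtype (fun j : τ => j ∈ Set.range J)
        (fun j => M a j * z j)]
      congr 1
      let e : δ ≃ {j : τ // j ∈ Set.range J} := Equiv.ofInjective J hJ
      symm
      refine (Fintype.sum_equiv e (fun c => M a (J c) * z (J c))
        (fun j : {j : τ // j ∈ Set.range J} => M a j * z j) (fun c => rfl)).trans ?_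
      exact Finset.sum_congr (by ext x; simp) (fun _ _ => rfl)
    have h8 : algebraMap E Ω (b' a) = b a - ∑ j : τ', M a j * z j := by
      simp only [b', map_sub, map_sum, map_mul]
      rfl
    rw [h8, ← h6, h7]
    simp only [Matrix.map_apply]
    rw [add_sub_cancel_right]
    rfl
  have h9 : ∀ c, z (J c) ∈ E := by
    intro c
    have h10 : (fun c => z (J c)) = fun c => algebraMap E Ω ((M'⁻¹).mulVec b' c) := by
      have h11 : ((M'⁻¹).map (algebraMap E Ω)) * (M'.map (algebraMap E Ω)) = 1 := by
        rw [← Matrix.map_mul, Matrix.nonsing_inv_mul _ hdet', Matrix.map_one _ (map_zero _)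
          (map_one _)]
      have h12 : (fun c => z (J c)) = ((M'⁻¹).map (algebraMap E Ω)).mulVec
          ((M'.map (algebraMap E Ω)).mulVec (fun c => z (J c))) := by
        rw [Matrix.mulVec_mulVec, h11, Matrix.one_mulVec]
      rw [h12, h5]
      funext c
      simp only [Matrix.mulVec, dotProduct, Matrix.map_apply, map_sum, map_mul]
    have h13 := congrFun h10 c
    rw [h13]
    exact SetLike.coe_mem _
  have h14 : ∀ t : T, z t ∈ E := by
    intro t
    by_cases ht : (t : τ) ∈ Set.range J
    · obtain ⟨c, hc⟩ := ht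
      rw [← hc]
      exact h9 c
    · exact hzE ⟨t, ht⟩
  have h15 := card_le_of_gen y _ hT h14
  rw [Fintype.card_coe, Fintype.card_sum] at h15
  omega

end Pool.Agent.Helper66.FQ
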