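import Pool.Agent.Helper66.FQ.Spec
import Pool.Agent.Helper66.FQ.Upper

/-! Nondegeneracy conditions over extension fields. -/

set_option autoImplicit false

namespace Pool.Agent.Helper66.FQ

variable {k Ω : Type} [Field k] [IsAlgClosed k] [Field Ω] [Algebra k Ω]

theorem indep_ext {ρ τ δ : Type} [Fintype ρ] [Fintype δ] (B : ρ → τ → δ → k)
    (h : ∀ l : ρ → k, l ≠ 0 → ∀ c : δ → k, c ≠ 0 → ∃ j, ∑ i, ∑ a, l i * c a * B i j a ≠ 0)
    (l : ρ → Ω) (hl : l ≠ 0) (c : δ → Ω) (hc : c ≠ 0) :
    ∃ j, ∑ i, ∑ a, l i * c a * algebraMap k Ω (B i j a) ≠ 0 := by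
  by_contra hcon
  push Not at hcon
  obtain ⟨i0, hi0⟩ := Function.ne_iff.1 hl
  obtain ⟨a0, ha0⟩ := Function.ne_iff.1 hc
  simp only [Pi.zero_apply] at hi0 ha0
  let S : Set Ω := Set.range l ∪ Set.range c ∪ {(l i0)⁻¹, (c a0)⁻¹}
  have hS : S.Finite := ((Set.finite_range l).union (Set.finite_range c)).union (Set.toFinite _)
  obtain ⟨π⟩ := exists_special (k := k) S hS
  let A := Algebra.adjoin k S
  have hlA : ∀ i, l i ∈ A := fun i => Algebra.subset_adjoin (Or.inl (Or.inl ⟨i, rfl⟩))
  have hcA : ∀ a, c a ∈ A := fun a => Algebra.subset_adjoin (Or.inl (Or.inr ⟨a, rfl⟩))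
  have h1A : (l i0)⁻¹ ∈ A := Algebra.subset_adjoin (Or.inr (Or.inl rfl))
  have h2A : (c a0)⁻¹ ∈ A := Algebra.subset_adjoin (Or.inr (Or.inr rfl))
  have h1 : (⟨l i0, hlA i0⟩ : A) * ⟨(l i0)⁻¹, h1A⟩ = 1 := Subtype.ext (mul_inv_cancel₀ hi0)
  have h2 : (⟨c a0, hcA a0⟩ : A) * ⟨(c a0)⁻¹, h2A⟩ = 1 := Subtype.ext (mul_inv_cancel₀ ha0)
  have h1' := congrArg π h1
  have h2' := congrArg π h2
  rw [map_mul, map_one] at h1' h2'
  obtain ⟨j, hj⟩ := h (fun i => π ⟨l i, hlA i⟩) (by
      intro h0
      have := congrFun h0 i0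
      simp only [Pi.zero_apply] at this
      rw [this, zero_mul] at h1'
      exact zero_ne_one h1') (fun a => π ⟨c a, hcA a⟩) (by
      intro h0
      have := congrFun h0 a0
      simp only [Pi.zero_apply] at this
      rw [this, zero_mul] at h2'
      exact zero_ne_one h2')
  apply hj
  have h3 : ∑ i, ∑ a, (⟨l i, hlA i⟩ : A) * ⟨c a, hcA a⟩ * algebraMap k A (B i j a) = 0 := by
    apply Subtype.ext
    simp only [AddSubmonoidClass.coe_finsetSum, MulMemClass.coe_mul, ZeroMemClass.coe_zero]
    exact hcon j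
  have h4 := congrArg π h3
  simp only [map_sum, map_mul, map_zero] at h4
  rw [← h4]
  refine Finset.sum_congr rfl fun i _ => Finset.sum_congr rfl fun a _ => ?_
  rw [π.commutes]
  rfl

theorem rank_ext {ρ m n : Type} [Fintype ρ] [Fintype m] [Fintype n] (B : ρ → Matrix m n k)
    (R : ℕ) (h : ∀ l : ρ → k, l ≠ 0 → R ≤ (∑ i, l i • B i).rank) (l : ρ → Ω) (hl : l ≠ 0) :
    R ≤ (∑ i, l i • (B i).map (algebraMap k Ω)).rank := by
  classical
  by_contra hcon
  push Not at hcon
  obtain ⟨i0, hi0⟩ := Function.ne_iff.1 hl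
  simp only [Pi.zero_apply] at hi0
  set M : Matrix m n Ω := ∑ i, l i • (B i).map (algebraMap k Ω) with hM
  let W := LinearMap.ker M.mulVecLin
  have hW : M.rank + Module.finrank Ω W = Fintype.card n := by
    have := LinearMap.finrank_range_add_finrank_ker M.mulVecLin
    rw [Module.finrank_fintype_fun_eq_card] at this
    exact this
  set d := Module.finrank Ω W with hd
  let bs := Module.finBasis Ω W
  let v : Fin d → n → Ω := fun b => (bs b : n → Ω)
  have hv : LinearIndependent Ω v := bs.linearIndependent.map' W.subtype (by simp)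
  have hMv : ∀ b, M.mulVec (v b) = 0 := fun b => LinearMap.mem_ker.1 (bs b).2
  -- a left inverse
  obtain ⟨g, hg⟩ := LinearMap.exists_leftInverse_of_injective
    (Fintype.linearCombination Ω v) (by
      rw [LinearMap.ker_eq_bot]
      exact linearIndependent_iff_injective_fintypeLinearCombination.1 hv)
  have hgv : ∀ b b', g (v b) b' = if b = b' then 1 else 0 := by
    intro b b'
    have h1 := congrArg (fun f => f (Pi.single b 1)) hg
    simp only [LinearMap.comp_apply, LinearMap.id_apply] at h1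
    have h2 : Fintype.linearCombination Ω v (Pi.single b 1) = v b := by
      rw [Fintype.linearCombination_apply_single, one_smul]
    rw [h2] at h1
    rw [h1, Pi.single_apply]
    simp only [eq_comm]
  let U : Fin d → n → Ω := fun b' j => g (Pi.single j 1) b'
  have hU : ∀ b b', ∑ j, U b' j * v b j = if b = b' then 1 else 0 := by
    intro b b'
    rw [← hgv b b']
    have h1 : v b = ∑ j, v b j • (Pi.single j (1 : Ω) : n → Ω) := by
      funext j
      simp [Finset.sum_apply, Pi.single_apply]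
    conv_rhs => rw [h1]
    rw [map_sum, Finset.sum_apply]
    refine Finset.sum_congr rfl fun j _ => ?_
    rw [map_smul, Pi.smul_apply, smul_eq_mul, mul_comm]
  let S : Set Ω := Set.range l ∪ Set.range (fun p : Fin d × n => v p.1 p.2) ∪
    Set.range (fun p : Fin d × n => U p.1 p.2) ∪ {(l i0)⁻¹}
  have hS : S.Finite := (((Set.finite_range l).union (Set.finite_range _)).union
    (Set.finite_range _)).union (Set.toFinite _)
  obtain ⟨π⟩ := exists_special (k := k) S hS
  let A := Algebra.adjoin k S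
  have hlA : ∀ i, l i ∈ A := fun i => Algebra.subset_adjoin (Or.inl (Or.inl (Or.inl ⟨i, rfl⟩)))
  have hvA : ∀ b j, v b j ∈ A := fun b j =>
    Algebra.subset_adjoin (Or.inl (Or.inl (Or.inr ⟨(b, j), rfl⟩)))
  have hUA : ∀ b j, U b j ∈ A := fun b j => Algebra.subset_adjoin (Or.inl (Or.inr ⟨(b, j), rfl⟩))
  have h1A : (l i0)⁻¹ ∈ A := Algebra.subset_adjoin (Or.inr rfl)
  have h1 : (⟨l i0, hlA i0⟩ : A) * ⟨(l i0)⁻¹, h1A⟩ = 1 := Subtype.ext (mul_inv_cancel₀ hi0)
  have h1' := congrArg π h1
  rw [map_mul, map_one] at h1'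
  let l' : ρ → k := fun i => π ⟨l i, hlA i⟩
  let v' : Fin d → n → k := fun b j => π ⟨v b j, hvA b j⟩
  have hl' : l' ≠ 0 := by
    intro h0
    have h2 : π ⟨l i0, hlA i0⟩ = 0 := congrFun h0 i0
    rw [h2, zero_mul] at h1'
    exact zero_ne_one h1'
  have h3 : ∀ b i, (∑ i', l' i' • B i').mulVec (v' b) i = 0 := by
    intro b i
    have h4 : ∑ j, (∑ i', (⟨l i', hlA i'⟩ : A) * algebraMap k A (B i' i j)) * ⟨v b j, hvA b j⟩
        = 0 := by
      apply Subtype.ext
      simp only [AddSubmonoidClass.coe_finsetSum, MulMemClass.coe_mul, ZeroMemClass.coe_zero]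
      have h5 := congrFun (hMv b) i
      simp only [Matrix.mulVec, dotProduct, Pi.zero_apply] at h5
      rw [← h5]
      refine Finset.sum_congr rfl fun j _ => ?_
      congr 1
      rw [hM, Matrix.sum_apply]
      rfl
    have h6 := congrArg π h4
    rw [map_zero] at h6
    rw [← h6]
    simp only [Matrix.mulVec, dotProduct, map_sum, map_mul]
    refine Finset.sum_congr rfl fun j _ => ?_
    congr 1
    rw [Matrix.sum_apply]
    refine Finset.sum_congr rfl fun i' _ => ?_
    rw [π.commutes, Matrix.smul_apply, smul_eq_mul]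
    rfl
  have hv' : LinearIndependent k v' := by
    rw [Fintype.linearIndependent_iff]
    intro c hc b'
    have h7 : ∀ b b' : Fin d, ∑ j, π ⟨U b' j, hUA b' j⟩ * v' b j = if b = b' then 1 else 0 := by
      intro b b'
      have h8 : ∑ j, (⟨U b' j, hUA b' j⟩ : A) * ⟨v b j, hvA b j⟩ = if b = b' then 1 else 0 := by
        apply Subtype.ext
        simp only [AddSubmonoidClass.coe_finsetSum, MulMemClass.coe_mul]
        rw [hU b b']
        split_ifs <;> rfl
      have h9 := congrArg π h8
      simp only [map_sum, map_mul] at h9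
      rw [h9]
      split_ifs
      · exact map_one π
      · exact map_zero π
    have h10 : ∑ j, π ⟨U b' j, hUA b' j⟩ * (∑ b, c b • v' b) j = c b' := by
      have h11 : ∀ j, π ⟨U b' j, hUA b' j⟩ * (∑ b, c b • v' b) j =
          ∑ b, c b * (π ⟨U b' j, hUA b' j⟩ * v' b j) := by
        intro j
        rw [Finset.sum_apply, Finset.mul_sum]
        refine Finset.sum_congr rfl fun b _ => ?_
        rw [Pi.smul_apply, smul_eq_mul]
        ring
      rw [Finset.sum_congr rfl fun j _ => h11 j, Finset.sum_comm]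
      rw [Finset.sum_congr rfl fun b _ => (Finset.mul_sum _ _ _).symm]
      rw [Finset.sum_congr rfl fun b _ => by rw [h7 b b']]
      simp
    rw [← h10, hc]
    simp
  have h12 : d ≤ Module.finrank k (LinearMap.ker (∑ i', l' i' • B i').mulVecLin) := by
    have h13 : LinearIndependent k (fun b => (⟨v' b, LinearMap.mem_ker.2 (funext (h3 b))⟩ :
        LinearMap.ker (∑ i', l' i' • B i').mulVecLin)) :=
      LinearIndependent.of_comp (LinearMap.ker (∑ i', l' i' • B i').mulVecLin).subtype hv'
    have := h13.fintype_card_le_finrank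
    rwa [Fintype.card_fin] at this
  have h14 : (∑ i', l' i' • B i').rank +
      Module.finrank k (LinearMap.ker (∑ i', l' i' • B i').mulVecLin) = Fintype.card n := by
    have := LinearMap.finrank_range_add_finrank_ker (∑ i', l' i' • B i').mulVecLin
    rw [Module.finrank_fintype_fun_eq_card] at this
    exact this
  have h15 := h l' hl'
  omega

end Pool.Agent.Helper66.FQ
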