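import Mathlib

/-! Polynomials of degree two and linear changes of coordinates. -/

set_option autoImplicit false

namespace Pool.Agent.Helper66.FQ

open MvPolynomial

variable {k : Type} [Field k]

/-- the polynomial `xᵀ A x + l x + c` -/
noncomputable def quad {ι : Type} [Fintype ι] (A : Matrix ι ι k) (l : ι → k) (c : k) :
    MvPolynomial ι k :=
  ∑ i, ∑ j, C (A i j) * X i * X j + ∑ i, C (l i) * X i + C c

section basic

variable {ι : Type} [Fintype ι]

theorem quad_zero : quad (0 : Matrix ι ι k) 0 0 = 0 := by
  simp [quad]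

theorem quad_add (A A' : Matrix ι ι k) (l l' : ι → k) (c c' : k) :
    quad (A + A') (l + l') (c + c') = quad A l c + quad A' l' c' := by
  simp only [quad, Matrix.add_apply, Pi.add_apply, map_add, add_mul, Finset.sum_add_distrib]
  ring

theorem quad_smul (a : k) (A : Matrix ι ι k) (l : ι → k) (c : k) :
    quad (a • A) (a • l) (a * c) = a • quad A l c := by
  simp only [quad, Matrix.smul_apply, Pi.smul_apply, smul_eq_mul, map_mul, smul_eq_C_mul,
    mul_add, Finset.mul_sum, mul_assoc]

theorem quad_sum {κ : Type} (s : Finset κ) (A : κ → Matrix ι ι k) (l : κ → ι → k) (c : κ → k) :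
    quad (∑ i ∈ s, A i) (∑ i ∈ s, l i) (∑ i ∈ s, c i) = ∑ i ∈ s, quad (A i) (l i) (c i) := by
  classical
  induction s using Finset.induction_on with
  | empty => simp [quad_zero]
  | insert a s ha ih =>
    rw [Finset.sum_insert ha, Finset.sum_insert ha, Finset.sum_insert ha, Finset.sum_insert ha,
      quad_add, ih]

theorem quad_comb {κ : Type} [Fintype κ] (a : κ → k) (A : κ → Matrix ι ι k) (l : κ → ι → k)
    (c : κ → k) : ∑ i, a i • quad (A i) (l i) (c i) =
      quad (∑ i, a i • A i) (∑ i, a i • l i) (∑ i, a i * c i) := by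
  rw [quad_sum]
  exact Finset.sum_congr rfl fun i _ => (quad_smul _ _ _ _).symm

theorem totalDegree_quad (A : Matrix ι ι k) (l : ι → k) (c : k) :
    (quad A l c).totalDegree ≤ 2 := by
  refine (totalDegree_add _ _).trans (max_le ((totalDegree_add _ _).trans (max_le ?_ ?_)) ?_)
  · refine totalDegree_finsetSum_le fun i _ => totalDegree_finsetSum_le fun j _ => ?_
    refine (totalDegree_mul _ _).trans ?_
    refine (Nat.add_le_add (totalDegree_mul _ _) le_rfl).trans ?_
    rw [totalDegree_C, totalDegree_X, totalDegree_X]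
  · refine totalDegree_finsetSum_le fun i _ => ?_
    refine (totalDegree_mul _ _).trans ?_
    rw [totalDegree_C, totalDegree_X]
    omega
  · rw [totalDegree_C]; omega

/-- every polynomial of degree at most two is of this form, with a symmetric matrix -/
theorem exists_quad (h2 : (2 : k) ≠ 0) (f : MvPolynomial ι k) (hf : f.totalDegree ≤ 2) :
    ∃ (A : Matrix ι ι k) (l : ι → k) (c : k), A.IsSymm ∧ f = quad A l c := by
  classical
  have hmon : ∀ (d : ι →₀ ℕ) (a : k), d.degree ≤ 2 →
      ∃ (A : Matrix ι ι k) (l : ι → k) (c : k), A.IsSymm ∧ monomial d a = quad A l c := by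
    intro d a hd
    by_cases h0 : d = 0
    · refine ⟨0, 0, a, Matrix.isSymm_zero, ?_⟩
      rw [h0]
      simp [quad]
    obtain ⟨i, hi⟩ := Finsupp.ne_iff.1 h0
    have hi' : 1 ≤ d i := Nat.one_le_iff_ne_zero.2 (by simpa using hi)
    have hd1 : d = Finsupp.single i 1 + (d - Finsupp.single i 1) := by
      rw [add_tsub_cancel_of_le]
      rw [Finsupp.single_le_iff]
      exact hi'
    set d' := d - Finsupp.single i 1 with hd'
    have hdeg : d'.degree ≤ 1 := by
      have := congrArg Finsupp.degree hd1
      rw [map_add, Finsupp.degree_single] at this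
      omega
    by_cases h1 : d' = 0
    · refine ⟨0, Pi.single i a, 0, Matrix.isSymm_zero, ?_⟩
      rw [hd1, h1, add_zero]
      simp only [quad, Matrix.zero_apply, map_zero, zero_mul, Finset.sum_const_zero, zero_add,
        add_zero]
      rw [Finset.sum_eq_single i]
      · simp [C_mul_X_eq_monomial]
      · intro j _ hj
        simp [Pi.single_eq_of_ne hj]
      · simp
    obtain ⟨j, hj⟩ := Finsupp.ne_iff.1 h1
    have hj' : 1 ≤ d' j := Nat.one_le_iff_ne_zero.2 (by simpa using hj)
    have hd2 : d' = Finsupp.single j 1 + (d' - Finsupp.single j 1) := by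
      rw [add_tsub_cancel_of_le]
      rw [Finsupp.single_le_iff]
      exact hj'
    have h3 : d' - Finsupp.single j 1 = 0 := by
      have := congrArg Finsupp.degree hd2
      rw [map_add, Finsupp.degree_single] at this
      rw [← Finsupp.degree_eq_zero_iff]
      omega
    rw [h3, add_zero] at hd2
    refine ⟨(a / 2) • (Matrix.single i j 1 + Matrix.single j i 1), 0, 0, ?_, ?_⟩
    · ext p q
      simp only [Matrix.transpose_apply, Matrix.smul_apply, Matrix.add_apply, Matrix.single_apply,
        smul_eq_mul]
      congr 1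
      rw [add_comm]
      congr 1
      · simp only [and_comm]
      · simp only [and_comm]
    · rw [hd1, hd2]
      have h4 : ∀ p q : ι, ∀ b : k, ∑ i', ∑ j', C ((b • Matrix.single p q (1 : k)) i' j') * X i' *
          X j' = C b * X p * (X q : MvPolynomial ι k) := by
        intro p q b
        rw [Finset.sum_eq_single p]
        · rw [Finset.sum_eq_single q]
          · simp
          · intro j' _ hj'
            rw [Matrix.smul_apply, Matrix.single_apply_of_ne _ _ _ _ _ (by tauto)]
            simp
          · simp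
        · intro i' _ hi'
          refine Finset.sum_eq_zero fun j' _ => ?_
          rw [Matrix.smul_apply, Matrix.single_apply_of_ne _ _ _ _ _ (by tauto)]
          simp
        · simp
      simp only [quad, Pi.zero_apply, map_zero, zero_mul, Finset.sum_const_zero, add_zero]
      rw [smul_add]
      simp only [Matrix.add_apply, map_add, add_mul, Finset.sum_add_distrib]
      rw [h4, h4]
      have h5 : (monomial (Finsupp.single i 1 + Finsupp.single j 1)) a =
          C a * X i * (X j : MvPolynomial ι k) := by
        rw [C_mul_X_eq_monomial, X, monomial_mul, mul_one]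
      rw [h5]
      have h6 : C a = C (a / 2) + (C (a / 2) : MvPolynomial ι k) := by
        rw [← map_add]
        congr 1
        field_simp
        ring
      rw [h6]
      ring
  have hsum : ∀ s : Finset (ι →₀ ℕ), (∀ d ∈ s, d.degree ≤ 2) →
      ∃ (A : Matrix ι ι k) (l : ι → k) (c : k), A.IsSymm ∧
        ∑ d ∈ s, monomial d (coeff d f) = quad A l c := by
    intro s
    induction s using Finset.induction_on with
    | empty => exact fun _ => ⟨0, 0, 0, Matrix.isSymm_zero, by simp [quad_zero]⟩
    | insert d s hd ih =>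
      intro hs
      obtain ⟨A, l, c, hA, h⟩ := ih fun d' hd' => hs d' (Finset.mem_insert_of_mem hd')
      obtain ⟨A', l', c', hA', h'⟩ := hmon d (coeff d f) (hs d (Finset.mem_insert_self _ _))
      refine ⟨A' + A, l' + l, c' + c, hA'.add hA, ?_⟩
      rw [Finset.sum_insert hd, h, h', quad_add]
  obtain ⟨A, l, c, hA, h⟩ := hsum f.support fun d hd => by
    have := le_totalDegree hd
    rw [Finsupp.degree_eq_sum]
    refine le_trans (le_of_eq ?_) (this.trans hf)
    rw [Finsupp.sum_fintype]
    simp
  exact ⟨A, l, c, hA, by rw [← h]; exact f.as_sum⟩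

end basic

section coord

variable {ι ι' : Type} [Fintype ι] [Fintype ι']

/-- the substitution given by the vectors `b j` -/
noncomputable def subst (b : ι' → ι → k) : MvPolynomial ι k →ₐ[k] MvPolynomial ι' k :=
  aeval fun i => ∑ j, C (b j i) * X j

theorem sum4 {M : Type} [AddCommMonoid M] (f : ι → ι → ι' → ι' → M) :
    ∑ i, ∑ j, ∑ p, ∑ q, f i j p q = ∑ p, ∑ q, ∑ i, ∑ j, f i j p q :=
  calc ∑ i, ∑ j, ∑ p, ∑ q, f i j p q = ∑ i, ∑ p, ∑ j, ∑ q, f i j p q :=
        Finset.sum_congr rfl fun _ _ => Finset.sum_comm
    _ = ∑ p, ∑ i, ∑ j, ∑ q, f i j p q := Finset.sum_comm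
    _ = ∑ p, ∑ i, ∑ q, ∑ j, f i j p q :=
        Finset.sum_congr rfl fun _ _ => Finset.sum_congr rfl fun _ _ => Finset.sum_comm
    _ = ∑ p, ∑ q, ∑ i, ∑ j, f i j p q := Finset.sum_congr rfl fun _ _ => Finset.sum_comm

theorem subst_quad (b : ι' → ι → k) (A : Matrix ι ι k) (l : ι → k) (c : k) :
    subst b (quad A l c) = quad (Matrix.of fun j j' => b j ⬝ᵥ A.mulVec (b j'))
      (fun j => l ⬝ᵥ b j) c := by
  simp only [subst, quad, map_add, map_sum, map_mul, aeval_X, algHom_C, algebraMap_eq,
    Matrix.of_apply]
  congr 2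
  · have h1 : ∀ i j, C (A i j) * (∑ p, C (b p i) * X p) * (∑ q, C (b q j) * X q) =
        ∑ p, ∑ q, C (b p i * (A i j * b q j)) * X p * (X q : MvPolynomial ι' k) := by
      intro i j
      rw [mul_assoc, Finset.sum_mul_sum, Finset.mul_sum]
      refine Finset.sum_congr rfl fun p _ => ?_
      rw [Finset.mul_sum]
      refine Finset.sum_congr rfl fun q _ => ?_
      simp only [map_mul]
      ring
    rw [Finset.sum_congr rfl fun i _ => Finset.sum_congr rfl fun j _ => h1 i j, sum4]
    refine Finset.sum_congr rfl fun p _ => Finset.sum_congr rfl fun q _ => ?_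
    simp only [dotProduct, Matrix.mulVec, map_sum, Finset.sum_mul, Finset.mul_sum]
  · simp only [dotProduct, map_sum, map_mul, Finset.sum_mul, Finset.mul_sum]
    rw [Finset.sum_comm]
    refine Finset.sum_congr rfl fun j _ => Finset.sum_congr rfl fun i _ => ?_
    ring

end coord

end Pool.Agent.Helper66.FQ
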