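import Pool.Agent.Helper66.FQ.Iso
import Pool.Agent.Helper66.FQ.Quad
import Pool.Agent.Helper66.FQ.Stm

/-! The differentials at the generic point are independent on an isotropic subspace. -/

set_option autoImplicit false

namespace Pool.Agent.Helper66.FQ

open MvPolynomial

/-- the differential of the `quad A l c` at `x` in the direction `v` -/
noncomputable def dq {k L ι : Type} [Field k] [Field L] [Algebra k L] [Fintype ι]
    (A : Matrix ι ι k) (l : ι → k) (x : ι → L) (v : ι → k) : L :=
  ∑ j, algebraMap k L (v j) * (2 * ∑ p, algebraMap k L (A p j) * x p + algebraMap k L (l j))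

theorem stageA (DL : DimLower) {k L : Type} [Field k] [IsAlgClosed k] [Field L] [Algebra k L]
    (h2 : (2 : k) ≠ 0) {σ τ κ₀ ρ : Type} [Fintype σ] [Fintype τ] [Fintype κ₀] [Fintype ρ]
    [DecidableEq ρ] (F : κ₀ → MvPolynomial σ k) (A : ρ → Matrix (σ ⊕ τ) (σ ⊕ τ) k)
    (hA : ∀ i, (A i).IsSymm) (l : ρ → σ ⊕ τ → k) (c : ρ → k) (x : σ ⊕ τ → L)
    (hP : RingHom.ker (aeval x : MvPolynomial (σ ⊕ τ) k →ₐ[k] L) ∈
      (Ideal.span (Set.range (Sum.elim (fun i => rename Sum.inl (F i))
        fun i => quad (A i) (l i) (c i)))).minimalPrimes)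
    (R : ℕ) (hR : ∀ u : ρ → k, u ≠ 0 → R ≤ (∑ i, u i • (A i).toBlocks₂₂).rank)
    (hcard : Fintype.card ρ + (Fintype.card ρ + 1) * (2 * Fintype.card ρ) ≤ R + 1) :
    ∃ w : ρ → τ → k, (∀ i a b, w a ⬝ᵥ (A i).toBlocks₂₂.mulVec (w b) = 0) ∧
      (Matrix.of fun i a => dq (A i) (l i) x (Sum.elim 0 (w a))).det ≠ 0 := by
  classical
  have hAs : ∀ i p q, A i p q = A i q p := fun i p q => (hA i).apply q p
  obtain ⟨w, hw, hind⟩ := exists_W (fun i => (A i).toBlocks₂₂) (by
    intro i
    ext p q
    simp only [Matrix.transpose_apply, Matrix.toBlocks₂₂, Matrix.of_apply]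
    exact hAs i _ _) R (2 * Fintype.card ρ) hR hcard
  -- the matrix of the differentials
  let Ψ : Matrix ρ (Fin (2 * Fintype.card ρ)) L :=
    Matrix.of fun i a => dq (A i) (l i) x (Sum.elim 0 (w a))
  have hdq : ∀ i a, Ψ i a = ∑ j : τ, algebraMap k L (w a j) *
      (2 * ∑ p, algebraMap k L (A i p (Sum.inr j)) * x p + algebraMap k L (l i (Sum.inr j))) := by
    intro i a
    simp only [Ψ, Matrix.of_apply, dq, Fintype.sum_sum_type, Sum.elim_inl, Pi.zero_apply, map_zero,
      zero_mul, Finset.sum_const_zero, zero_add, Sum.elim_inr]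
  have hrow : LinearIndependent L Ψ.row := by
    rw [Fintype.linearIndependent_iff]
    by_contra hcon
    push Not at hcon
    obtain ⟨u, hu, i0, hi0⟩ := hcon
    let K := IntermediateField.adjoin k (Set.range fun s : σ => x (Sum.inl s))
    obtain ⟨T, hT, hTcard⟩ := DL k L σ τ κ₀ ρ F (fun i => quad (A i) (l i) (c i)) x hP
    let u' : ρ → L := fun i => (u i0)⁻¹ * u i
    have hu'0 : u' i0 = 1 := inv_mul_cancel₀ hi0
    have hu' : ∀ a, ∑ i, u' i * Ψ i a = 0 := by
      intro a
      have h1 := congrFun hu a
      simp only [Finset.sum_apply, Pi.smul_apply, Matrix.row_apply, smul_eq_mul,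
        Pi.zero_apply] at h1
      simp only [u', mul_assoc]
      rw [← Finset.mul_sum, h1, mul_zero]
    let θ : {i : ρ // i ≠ i0} → L := fun i => u' i
    have hθ : ∀ i, u' i ∈ IntermediateField.adjoin K (Set.range θ) := by
      intro i
      by_cases h : i = i0
      · rw [h, hu'0]; exact one_mem _
      · exact IntermediateField.subset_adjoin _ _ ⟨⟨i, h⟩, rfl⟩
    have hk : ∀ a : k, algebraMap k L a ∈ IntermediateField.adjoin K (Set.range θ) := by
      intro a
      have h1 : algebraMap k L a = algebraMap K L (algebraMap k K a) := rfl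
      rw [h1]
      exact IntermediateField.algebraMap_mem _ _
    have hxs : ∀ s : σ, x (Sum.inl s) ∈ IntermediateField.adjoin K (Set.range θ) := by
      intro s
      have h1 : x (Sum.inl s) = algebraMap K L ⟨x (Sum.inl s),
        IntermediateField.subset_adjoin _ _ ⟨s, rfl⟩⟩ := rfl
      rw [h1]
      exact IntermediateField.algebraMap_mem _ _
    let M : Matrix (Fin (2 * Fintype.card ρ)) τ L := Matrix.of fun a j' =>
      2 * ∑ i, ∑ j, u' i * (algebraMap k L (w a j) *
        algebraMap k L (A i (Sum.inr j') (Sum.inr j)))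
    let b : Fin (2 * Fintype.card ρ) → L := fun a => - ∑ i, ∑ j, u' i *
      (algebraMap k L (w a j) * (2 * ∑ s : σ, algebraMap k L (A i (Sum.inl s) (Sum.inr j)) *
        x (Sum.inl s) + algebraMap k L (l i (Sum.inr j))))
    have h2mem : (2 : L) ∈ IntermediateField.adjoin K (Set.range θ) := by
      have : (2 : L) = algebraMap k L 2 := by rw [map_ofNat]
      rw [this]
      exact hk 2
    have h3 := upper (K := K) (Ω := L) (fun j => x (Sum.inr j)) θ M b
      (fun a j' => mul_mem h2mem (sum_mem fun i _ => sum_mem fun j _ =>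
        mul_mem (hθ i) (mul_mem (hk _) (hk _))))
      (fun a => neg_mem (sum_mem fun i _ => sum_mem fun j _ => mul_mem (hθ i) (mul_mem (hk _)
        (add_mem (mul_mem h2mem (sum_mem fun s _ => mul_mem (hk _) (hxs s))) (hk _)))))
      (by
        funext a
        have h4 := hu' a
        simp only [hdq] at h4
        simp only [Matrix.mulVec, dotProduct, M, b, Matrix.of_apply]
        rw [eq_neg_iff_add_eq_zero, ← h4]
        have h5 : ∀ i, u' i * ∑ j : τ, algebraMap k L (w a j) *
            (2 * ∑ p, algebraMap k L (A i p (Sum.inr j)) * x p +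
              algebraMap k L (l i (Sum.inr j))) =
            ∑ j, ∑ j', u' i * (2 * (algebraMap k L (w a j) *
              (algebraMap k L (A i (Sum.inr j') (Sum.inr j)) * x (Sum.inr j')))) +
            ∑ j, u' i * (algebraMap k L (w a j) * (2 * ∑ s : σ, algebraMap k L
              (A i (Sum.inl s) (Sum.inr j)) * x (Sum.inl s) +
                algebraMap k L (l i (Sum.inr j)))) := by
          intro i
          rw [Finset.mul_sum, ← Finset.sum_add_distrib]
          refine Finset.sum_congr rfl fun j _ => ?_
          rw [Fintype.sum_sum_type]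
          simp only [mul_add, Finset.mul_sum]
          ring_nf
        rw [Finset.sum_congr rfl fun i _ => h5 i, Finset.sum_add_distrib]
        congr 1
        simp only [Finset.mul_sum, Finset.sum_mul]
        rw [Finset.sum_comm]
        refine Finset.sum_congr rfl fun i _ => ?_
        rw [Finset.sum_comm]
        refine Finset.sum_congr rfl fun j _ => Finset.sum_congr rfl fun j' _ => ?_
        ring)
      (by
        rw [Fintype.linearIndependent_iff]
        by_contra hcon
        push Not at hcon
        obtain ⟨c', hc', a0, ha0⟩ := hcon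
        obtain ⟨j', hj'⟩ := indep_ext (k := k) (Ω := L)
          (fun i (j : τ) a => (A i).toBlocks₂₂.mulVec (w a) j)
          (fun u hu c hc => by
            obtain ⟨j, hj⟩ := hind u hu c hc
            exact ⟨j, hj⟩) u' (by
            intro h0
            have := congrFun h0 i0
            rw [hu'0] at this
            exact one_ne_zero this) c' (by
            intro h0
            exact ha0 (congrFun h0 a0))
        apply hj'
        have h4 := congrFun hc' j'
        simp only [Finset.sum_apply, Pi.smul_apply, Matrix.row_apply, smul_eq_mul, Pi.zero_apply,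
          M, Matrix.of_apply] at h4
        have h5 : (2 : L) * ∑ i, ∑ a, u' i * c' a * algebraMap k L
            ((A i).toBlocks₂₂.mulVec (w a) j') = 0 := by
          rw [← h4, Finset.sum_comm, Finset.mul_sum]
          refine Finset.sum_congr rfl fun a _ => ?_
          simp only [Finset.mul_sum]
          refine Finset.sum_congr rfl fun i _ => ?_
          simp only [Matrix.mulVec, dotProduct, map_sum, map_mul, Finset.mul_sum]
          refine Finset.sum_congr rfl fun j _ => ?_
          simp only [Matrix.toBlocks₂₂, Matrix.of_apply]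
          ring
        have h6 : (2 : L) ≠ 0 := by
          have : (2 : L) = algebraMap k L 2 := by rw [map_ofNat]
          rw [this]
          exact (map_ne_zero _).2 h2
        exact (mul_eq_zero.1 h5).resolve_left h6) T hT
    rw [Fintype.card_fin, Fintype.card_subtype_compl, Fintype.card_subtype_eq] at h3
    have h7 : 0 < Fintype.card ρ := Fintype.card_pos_iff.2 ⟨i0⟩
    omega
  obtain ⟨J, hJ, hdet⟩ := exists_minor Ψ hrow
  exact ⟨fun a => w (J a), fun i a b => hw i _ _, hdet⟩

end Pool.Agent.Helper66.FQ
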