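import Pool.Agent.Helper66.FQ.Ext
import Pool.Graph.R_seed8.Helper226.Dim

/-! Isotropic subspaces which avoid all the radicals. -/

set_option autoImplicit false

namespace Pool.Agent.Helper66.FQ

open MvPolynomial

section zero

variable {k : Type} [Field k] [IsAlgClosed k]

/-- fewer than `n` polynomials in `n` variables with a common zero have another one -/
theorem exists_other_zero {n : ℕ} (s : Finset (MvPolynomial (Fin n) k)) (hs : s.card < n)
    (a : Fin n → k) (ha : ∀ p ∈ s, eval a p = 0) : ∃ b, b ≠ a ∧ ∀ p ∈ s, eval b p = 0 := by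
  by_contra hcon
  push Not at hcon
  have hzl : zeroLocus k (Ideal.span (s : Set (MvPolynomial (Fin n) k))) = {a} := by
    rw [zeroLocus_span]
    ext x
    simp only [Set.mem_singleton_iff, Set.mem_ofPred_eq, Finset.mem_coe]
    constructor
    · intro h
      by_contra hx
      obtain ⟨p, hp, hp0⟩ := hcon x hx
      apply hp0
      have := h p hp
      rwa [aeval_eq_eval] at this
    · rintro rfl p hp
      rw [aeval_eq_eval]
      exact ha p hp
  have hrad := vanishingIdeal_zeroLocus_eq_radical (k := k) (K := k)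
    (Ideal.span (s : Set (MvPolynomial (Fin n) k)))
  rw [hzl] at hrad
  have hmax : (vanishingIdeal k ({a} : Set (Fin n → k))).IsMaximal :=
    inferInstance
  have hmin : vanishingIdeal k ({a} : Set (Fin n → k)) ∈
      (Ideal.span (s : Set (MvPolynomial (Fin n) k))).minimalPrimes := by
    rw [← Ideal.radical_minimalPrimes, ← hrad]
    have := hmax.isPrime
    rw [Ideal.minimalPrimes_eq_subsingleton_self]
    exact Set.mem_singleton _
  have h1 := Ideal.height_le_card_of_mem_minimalPrimes_span_finset hmin
  rw [Pool.Agent.Helper226.mvPolynomial_height k n _ hmax] at h1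
  have h2 : n ≤ s.card := by exact_mod_cast h1
  omega

/-- the same for families of polynomials -/
theorem exists_nonzero_zero {σ : Type} [Fintype σ] {ι : Type} [Fintype ι]
    (hι : Fintype.card ι < Fintype.card σ)
    (p : ι → MvPolynomial σ k) (ha : ∀ i, eval (0 : σ → k) (p i) = 0) :
    ∃ b : σ → k, b ≠ 0 ∧ ∀ i, eval b (p i) = 0 := by
  classical
  let e := Fintype.equivFin σ
  obtain ⟨b, hb, h⟩ := exists_other_zero (Finset.univ.image fun i => rename e (p i))
    ((Finset.card_image_le).trans_lt hι) 0 (by
      intro q hq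
      obtain ⟨i, -, rfl⟩ := Finset.mem_image.1 hq
      rw [eval_rename]
      exact ha i)
  refine ⟨b ∘ e, ?_, fun i => ?_⟩
  · intro hc
    apply hb
    funext j
    have := congrFun hc (e.symm j)
    simpa using this
  · have := h _ (Finset.mem_image.2 ⟨i, Finset.mem_univ _, rfl⟩)
    rwa [eval_rename] at this

end zero

/-- quadratic forms in many variables have a common isotropic subspace of given dimension -/
theorem exists_iso {k : Type} [Field k] [IsAlgClosed k] {ρ μ : Type} [Fintype ρ] [Fintype μ]
    (Q : ρ → Matrix μ μ k) (hQ : ∀ i, (Q i).IsSymm) (D : ℕ)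
    (hD : (Fintype.card ρ + 1) * D ≤ Fintype.card μ) :
    ∃ C : Fin D → μ → k, LinearIndependent k C ∧
      ∀ i a b, C a ⬝ᵥ (Q i).mulVec (C b) = 0 := by
  classical
  induction D with
  | zero => exact ⟨fun a => a.elim0, linearIndependent_empty_type, fun i a => a.elim0⟩
  | succ D ih =>
    obtain ⟨C, hC, hiso⟩ := ih (by
      refine le_trans ?_ hD
      exact Nat.mul_le_mul_left _ (Nat.le_succ D))
    obtain ⟨g, hg⟩ := LinearMap.exists_leftInverse_of_injective
      (Fintype.linearCombination k C) (by
        rw [LinearMap.ker_eq_bot]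
        exact linearIndependent_iff_injective_fintypeLinearCombination.1 hC)
    let p : (ρ × Fin D) ⊕ (ρ ⊕ Fin D) → MvPolynomial μ k := Sum.elim
      (fun q => ∑ j, MvPolynomial.C ((Q q.1).mulVec (C q.2) j) * X j)
      (Sum.elim (fun i => ∑ j, ∑ j', MvPolynomial.C (Q i j j') * X j * X j')
        (fun a => ∑ j, MvPolynomial.C (g (Pi.single j 1) a) * X j))
    obtain ⟨v, hv0, hv⟩ := exists_nonzero_zero (k := k) (p := p) (by
        simp only [Fintype.card_sum, Fintype.card_prod, Fintype.card_fin]
        have : (Fintype.card ρ + 1) * (D + 1) =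
          Fintype.card ρ * D + (Fintype.card ρ + D) + 1 := by ring
        omega) (by
        rintro (q | i | a) <;> simp [p])
    have h1 : ∀ i a, v ⬝ᵥ (Q i).mulVec (C a) = 0 := by
      intro i a
      have := hv (Sum.inl (i, a))
      simp only [p, Sum.elim_inl, map_sum, map_mul, eval_C, eval_X] at this
      rw [← this]
      exact Finset.sum_congr rfl fun j _ => mul_comm _ _
    have h2 : ∀ i, v ⬝ᵥ (Q i).mulVec v = 0 := by
      intro i
      have := hv (Sum.inr (Sum.inl i))
      simp only [p, Sum.elim_inl, Sum.elim_inr, map_sum, map_mul, eval_C, eval_X] at this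
      rw [← this]
      simp only [dotProduct, Matrix.mulVec, Finset.mul_sum]
      exact Finset.sum_congr rfl fun j _ => Finset.sum_congr rfl fun j' _ => by ring
    have h3 : ∀ a, g v a = 0 := by
      intro a
      have := hv (Sum.inr (Sum.inr a))
      simp only [p, Sum.elim_inr, map_sum, map_mul, eval_C, eval_X] at this
      have h4 : v = ∑ j, v j • (Pi.single j (1 : k) : μ → k) := by
        funext j
        simp [Finset.sum_apply, Pi.single_apply]
      rw [h4, map_sum, Finset.sum_apply, ← this]
      exact Finset.sum_congr rfl fun j _ => by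
        rw [map_smul, Pi.smul_apply, smul_eq_mul, mul_comm]
    have h5 : ∀ i a, C a ⬝ᵥ (Q i).mulVec v = 0 := by
      intro i a
      rw [Matrix.dotProduct_mulVec, ← Matrix.mulVec_transpose, (hQ i).eq, dotProduct_comm]
      exact h1 i a
    refine ⟨Fin.cons v C, ?_, ?_⟩
    · rw [linearIndependent_finCons]
      refine ⟨hC, fun hmem => hv0 ?_⟩
      rw [← Fintype.range_linearCombination] at hmem
      obtain ⟨t, ht⟩ := hmem
      have h6 : g v = t := by
        rw [← ht]
        exact congrArg (fun f => f t) hg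
      have h7 : t = 0 := by rw [← h6]; funext a; exact h3 a
      rw [← ht, h7, map_zero]
    · intro i a b
      refine Fin.cases ?_ (fun a' => ?_) a
      · refine Fin.cases ?_ (fun b' => ?_) b
        · simpa using h2 i
        · simpa using h1 i b'
      · refine Fin.cases ?_ (fun b' => ?_) b
        · simpa using h5 i a'
        · simpa using hiso i a' b'

theorem algInd_map {k A F α : Type} [Field k] [CommRing A] [Field F] [Algebra k A] [Algebra A F]
    [Algebra k F] [IsScalarTower k A F] (hinj : Function.Injective (algebraMap A F)) (x : α → A)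
    (hx : AlgebraicIndependent k x) : AlgebraicIndependent k (fun a => algebraMap A F (x a)) :=
  hx.map' (f := IsScalarTower.toAlgHom k A F) hinj

/-- a big algebraically closed field -/
theorem exists_generic (k : Type) [Field k] (α : Type) :
    ∃ (F : Type) (_ : Field F) (_ : IsAlgClosed F) (_ : Algebra k F) (η : α → F),
      AlgebraicIndependent k η := by
  have h1 := algInd_map (F := FractionRing (MvPolynomial α k))
    (IsFractionRing.injective (MvPolynomial α k) _) _ (MvPolynomial.algebraicIndependent_X α k)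
  have h2 := algInd_map (F := AlgebraicClosure (FractionRing (MvPolynomial α k)))
    (algebraMap (FractionRing (MvPolynomial α k)) _).injective _ h1
  exact ⟨_, inferInstance, inferInstance, inferInstance, _, h2⟩

/-- generic vectors are independent modulo all the radicals -/
theorem exists_M_aux {k : Type} [Field k] [IsAlgClosed k] {ρ τ δ : Type} [Fintype ρ] [Fintype τ]
    [Fintype δ] (B : ρ → Matrix τ τ k) (R : ℕ)
    (hR : ∀ l : ρ → k, l ≠ 0 → R ≤ (∑ i, l i • B i).rank)
    (hcard : Fintype.card ρ + Fintype.card δ ≤ R + 1)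
    {F : Type} [Field F] [IsAlgClosed F] [Algebra k F] (η : δ × τ → F)
    (hη : AlgebraicIndependent k η) :
    ∃ m : δ → τ → k, ∀ l : ρ → k, l ≠ 0 → ∀ c : δ → k, c ≠ 0 →
      ∃ j, ∑ i, ∑ a, ∑ d, l i * c a * m a d * B i d j ≠ 0 := by
  classical
  let E : ρ × δ → τ ⊕ Bool → MvPolynomial ((δ × τ) ⊕ (ρ ⊕ δ)) k := fun q => Sum.elim
    (fun j => ∑ i, ∑ a, ∑ d, X (Sum.inr (Sum.inl i)) * X (Sum.inr (Sum.inr a)) *
      X (Sum.inl (a, d)) * C (B i d j))
    (fun t => if t then X (Sum.inr (Sum.inl q.1)) - 1 else X (Sum.inr (Sum.inr q.2)) - 1)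
  obtain ⟨m, hm⟩ := special_nosol (k := k) (F := F) η E (by
    rintro ⟨i0, a0⟩ ⟨y, hy⟩
    have hi0 : y (Sum.inl i0) = 1 := by
      have := hy (Sum.inr true)
      simpa [E, sub_eq_zero] using this
    have ha0 : y (Sum.inr a0) = 1 := by
      have := hy (Sum.inr false)
      simpa [E, sub_eq_zero] using this
    have hrk := rank_ext (k := k) (Ω := F) B R hR (fun i => y (Sum.inl i)) (by
      intro h0
      have := congrFun h0 i0
      simp only [Pi.zero_apply] at this
      rw [this] at hi0
      exact zero_ne_one hi0)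
    set BL : Matrix τ τ F := ∑ i, y (Sum.inl i) • (B i).map (algebraMap k F) with hBL
    obtain ⟨J, hJ, hJi⟩ := exists_cols (δ := Fin R) BL (by rwa [Fintype.card_fin])
    let θ : {i : ρ // i ≠ i0} ⊕ {a : δ // a ≠ a0} → F :=
      Sum.elim (fun i => y (Sum.inl i)) (fun a => y (Sum.inr a))
    have hyl : ∀ i, y (Sum.inl i) ∈ IntermediateField.adjoin k (Set.range θ) := by
      intro i
      by_cases h : i = i0
      · rw [h, hi0]; exact one_mem _
      · exact IntermediateField.subset_adjoin _ _ ⟨Sum.inl ⟨i, h⟩, rfl⟩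
    have hyr : ∀ a, y (Sum.inr a) ∈ IntermediateField.adjoin k (Set.range θ) := by
      intro a
      by_cases h : a = a0
      · rw [h, ha0]; exact one_mem _
      · exact IntermediateField.subset_adjoin _ _ ⟨Sum.inr ⟨a, h⟩, rfl⟩
    let M : Matrix (Fin R) (δ × τ) F := Matrix.of fun r p => y (Sum.inr p.1) * BL p.2 (J r)
    have hBLm : ∀ d j, BL d j ∈ IntermediateField.adjoin k (Set.range θ) := by
      intro d j
      rw [hBL, Matrix.sum_apply]
      refine sum_mem fun i _ => ?_
      rw [Matrix.smul_apply, smul_eq_mul]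
      exact mul_mem (hyl i) (IntermediateField.algebraMap_mem _ _)
    have h1 := upper (K := k) (Ω := F) η θ M 0 (fun r p => mul_mem (hyr _) (hBLm _ _))
      (fun r => zero_mem _) (by
        funext r
        simp only [Matrix.mulVec, dotProduct, Pi.zero_apply]
        have h2 := hy (Sum.inl (J r))
        simp only [E, Sum.elim_inl, map_sum, map_mul, aeval_X, Sum.elim_inr, algHom_C] at h2
        rw [← h2, Fintype.sum_prod_type]
        rw [Finset.sum_comm (s := (Finset.univ : Finset ρ))]
        refine Finset.sum_congr rfl fun a _ => ?_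
        rw [Finset.sum_comm (s := (Finset.univ : Finset ρ))]
        refine Finset.sum_congr rfl fun d _ => ?_
        simp only [M, Matrix.of_apply, hBL, Matrix.sum_apply, Matrix.smul_apply, smul_eq_mul,
          Matrix.map_apply, Finset.mul_sum, Finset.sum_mul]
        refine Finset.sum_congr rfl fun i _ => ?_
        ring) (by
        rw [Fintype.linearIndependent_iff]
        intro c hc
        rw [Fintype.linearIndependent_iff] at hJi
        apply hJi c
        funext d
        have h3 := congrFun hc (a0, d)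
        simp only [Finset.sum_apply, Pi.smul_apply, Matrix.row_apply, M, Matrix.of_apply, ha0,
          one_mul, Pi.zero_apply] at h3
        simpa [Finset.sum_apply] using h3) Finset.univ (hη.comp _ Subtype.val_injective)
    rw [Finset.card_univ, Fintype.card_fin, Fintype.card_sum, Fintype.card_subtype_compl,
      Fintype.card_subtype_compl, Fintype.card_subtype_eq, Fintype.card_subtype_eq] at h1
    have h4 : 0 < Fintype.card ρ := Fintype.card_pos_iff.2 ⟨i0⟩
    have h5 : 0 < Fintype.card δ := Fintype.card_pos_iff.2 ⟨a0⟩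
    omega)
  refine ⟨fun a d => m (a, d), fun l hl c hc => ?_⟩
  by_contra hcon
  push Not at hcon
  obtain ⟨i0, hi0⟩ := Function.ne_iff.1 hl
  obtain ⟨a0, ha0⟩ := Function.ne_iff.1 hc
  simp only [Pi.zero_apply] at hi0 ha0
  apply hm (i0, a0)
  refine ⟨Sum.elim (fun i => (l i0)⁻¹ * l i) (fun a => (c a0)⁻¹ * c a), ?_⟩
  rintro (j | t)
  · simp only [E, Sum.elim_inl, map_sum, map_mul, aeval_X, Sum.elim_inr, algHom_C,
      Algebra.algebraMap_self, RingHom.id_apply]
    have h6 := hcon j
    have h7 : ∑ i, ∑ a, ∑ d, (l i0)⁻¹ * l i * ((c a0)⁻¹ * c a) * m (a, d) * B i d j =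
        (l i0)⁻¹ * (c a0)⁻¹ * ∑ i, ∑ a, ∑ d, l i * c a * m (a, d) * B i d j := by
      rw [Finset.mul_sum]
      refine Finset.sum_congr rfl fun i _ => ?_
      rw [Finset.mul_sum]
      refine Finset.sum_congr rfl fun a _ => ?_
      rw [Finset.mul_sum]
      refine Finset.sum_congr rfl fun d _ => ?_
      ring
    rw [h7, h6, mul_zero]
  · cases t
    · simp [E, inv_mul_cancel₀ ha0]
    · simp [E, inv_mul_cancel₀ hi0]

theorem exists_M {k : Type} [Field k] [IsAlgClosed k] {ρ τ δ : Type} [Fintype ρ] [Fintype τ]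
    [Fintype δ] (B : ρ → Matrix τ τ k) (R : ℕ)
    (hR : ∀ l : ρ → k, l ≠ 0 → R ≤ (∑ i, l i • B i).rank)
    (hcard : Fintype.card ρ + Fintype.card δ ≤ R + 1) :
    ∃ m : δ → τ → k, ∀ l : ρ → k, l ≠ 0 → ∀ c : δ → k, c ≠ 0 →
      ∃ j, ∑ i, ∑ a, ∑ d, l i * c a * m a d * B i d j ≠ 0 := by
  obtain ⟨F, _, _, _, η, hη⟩ := exists_generic k (δ × τ)
  exact exists_M_aux B R hR hcard η hη

/-- isotropic vectors which are independent modulo all the radicals -/
theorem exists_W {k : Type} [Field k] [IsAlgClosed k] {ρ τ : Type} [Fintype ρ] [Fintype τ]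
    (B : ρ → Matrix τ τ k) (hB : ∀ i, (B i).IsSymm) (R D : ℕ)
    (hR : ∀ l : ρ → k, l ≠ 0 → R ≤ (∑ i, l i • B i).rank)
    (hcard : Fintype.card ρ + (Fintype.card ρ + 1) * D ≤ R + 1) :
    ∃ w : Fin D → τ → k, (∀ i a b, w a ⬝ᵥ (B i).mulVec (w b) = 0) ∧
      ∀ l : ρ → k, l ≠ 0 → ∀ c : Fin D → k, c ≠ 0 →
        ∃ j, ∑ i, ∑ a, l i * c a * (B i).mulVec (w a) j ≠ 0 := by
  classical
  obtain ⟨m, hm⟩ := exists_M (δ := Fin ((Fintype.card ρ + 1) * D)) B R hR (by
    rwa [Fintype.card_fin])
  obtain ⟨C, hC, hiso⟩ := exists_iso (μ := Fin ((Fintype.card ρ + 1) * D))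
    (fun i => Matrix.of fun a b => m a ⬝ᵥ (B i).mulVec (m b)) (by
      intro i
      ext a b
      simp only [Matrix.transpose_apply, Matrix.of_apply]
      rw [Matrix.dotProduct_mulVec, ← Matrix.mulVec_transpose, (hB i).eq, dotProduct_comm]) D
      (by rw [Fintype.card_fin])
  refine ⟨fun a => ∑ d, C a d • m d, ?_, ?_⟩
  · intro i a b
    have h1 := hiso i a b
    rw [← h1]
    simp only [Matrix.mulVec_sum, Matrix.mulVec_smul, sum_dotProduct, dotProduct_sum,
      smul_dotProduct, dotProduct_smul, smul_eq_mul]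
    simp only [dotProduct, Matrix.mulVec, Matrix.of_apply, Finset.mul_sum]
    rw [Finset.sum_comm]
    refine Finset.sum_congr rfl fun d _ => Finset.sum_congr rfl fun e _ => ?_
    simp only [Finset.sum_mul, Finset.mul_sum]
    refine Finset.sum_congr rfl fun j _ => Finset.sum_congr rfl fun j' _ => ?_
    ring
  · intro l hl c hc
    obtain ⟨j, hj⟩ := hm l hl (fun d => ∑ a, c a * C a d) (by
      intro h0
      apply hc
      rw [Fintype.linearIndependent_iff] at hC
      funext a
      refine hC c ?_ a
      funext d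
      have := congrFun h0 d
      simpa [Finset.sum_apply] using this)
    refine ⟨j, ?_⟩
    convert hj using 1
    refine Finset.sum_congr rfl fun i _ => ?_
    simp only [Matrix.mulVec_sum, Matrix.mulVec_smul, Finset.sum_apply, Pi.smul_apply,
      smul_eq_mul, Finset.mul_sum]
    rw [Finset.sum_comm]
    refine Finset.sum_congr rfl fun d _ => ?_
    simp only [Matrix.mulVec, dotProduct, Finset.mul_sum, Finset.sum_mul]
    rw [Finset.sum_comm]
    refine Finset.sum_congr rfl fun e _ => Finset.sum_congr rfl fun a _ => ?_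
    have h2 : B i j e = B i e j := (hB i).apply e j
    rw [h2]
    ring

end Pool.Agent.Helper66.FQ
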