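import Pool.Agent.Helper66.FQ.Upper

/-! Regularisation: few linear forms suffice for the degenerate quadrics of a linear system. -/

set_option autoImplicit false

namespace Pool.Agent.Helper66.FQ

variable {k : Type} [Field k] {ι κ : Type} [Fintype ι] [Fintype κ]

/-- the coefficients `u` such that `∑ u i (A i, l i)` does not depend on `N` -/
def inv (A : κ → Matrix ι ι k) (l : κ → ι → k) (N : Submodule k (ι → k)) : Submodule k (κ → k) where
  carrier := {u | ∀ v ∈ N, (∑ i, u i • A i).mulVec v = 0 ∧ (∑ i, u i • l i) ⬝ᵥ v = 0}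
  add_mem' := by
    intro u u' hu hu' v hv
    have h1 : ∑ i, (u + u') i • A i = ∑ i, u i • A i + ∑ i, u' i • A i := by
      simp only [Pi.add_apply, add_smul, Finset.sum_add_distrib]
    have h2 : ∑ i, (u + u') i • l i = ∑ i, u i • l i + ∑ i, u' i • l i := by
      simp only [Pi.add_apply, add_smul, Finset.sum_add_distrib]
    rw [h1, h2, Matrix.add_mulVec, add_dotProduct, (hu v hv).1, (hu' v hv).1, (hu v hv).2,
      (hu' v hv).2]
    simp
  zero_mem' := by
    intro v _
    simp
  smul_mem' := by
    intro c u hu v hv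
    have h1 : ∑ i, (c • u) i • A i = c • ∑ i, u i • A i := by
      rw [Finset.smul_sum]
      exact Finset.sum_congr rfl fun i _ => by rw [Pi.smul_apply, smul_eq_mul, mul_smul]
    have h2 : ∑ i, (c • u) i • l i = c • ∑ i, u i • l i := by
      rw [Finset.smul_sum]
      exact Finset.sum_congr rfl fun i _ => by rw [Pi.smul_apply, smul_eq_mul, mul_smul]
    rw [h1, h2, Matrix.smul_mulVec, smul_dotProduct, (hu v hv).1, (hu v hv).2]
    simp

theorem mem_inv (A : κ → Matrix ι ι k) (l : κ → ι → k) (N : Submodule k (ι → k)) (u : κ → k) :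
    u ∈ inv A l N ↔ ∀ v ∈ N, (∑ i, u i • A i).mulVec v = 0 ∧ (∑ i, u i • l i) ⬝ᵥ v = 0 :=
  Iff.rfl

/-- the restriction of `M` to `N` -/
noncomputable def gram (N : Submodule k (ι → k)) (M : Matrix ι ι k) :
    Matrix (Fin (Module.finrank k N)) (Fin (Module.finrank k N)) k :=
  Matrix.of fun j j' => (Module.finBasis k N j : ι → k) ⬝ᵥ
    M.mulVec (Module.finBasis k N j' : ι → k)

/-- a step of the regularisation -/
theorem reg_step (A : Matrix ι ι k) (l : ι → k) (N : Submodule k (ι → k)) (R : ℕ)
    (hR : (gram N A).rank < R) :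
    ∃ N' : Submodule k (ι → k), N' ≤ N ∧ (∀ v ∈ N', A.mulVec v = 0 ∧ l ⬝ᵥ v = 0) ∧
      2 * Module.finrank k N ≤ Module.finrank k N' + R + Fintype.card ι := by
  classical
  let N' : Submodule k (ι → k) :=
    { carrier := {v | v ∈ N ∧ A.mulVec v = 0 ∧ l ⬝ᵥ v = 0}
      add_mem' := by
        rintro v v' ⟨h1, h2, h3⟩ ⟨h1', h2', h3'⟩
        refine ⟨N.add_mem h1 h1', ?_, ?_⟩
        · rw [Matrix.mulVec_add, h2, h2', add_zero]
        · rw [dotProduct_add, h3, h3', add_zero]
      zero_mem' := ⟨N.zero_mem, by simp, by simp⟩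
      smul_mem' := by
        rintro c v ⟨h1, h2, h3⟩
        refine ⟨N.smul_mem c h1, ?_, ?_⟩
        · rw [Matrix.mulVec_smul, h2, smul_zero]
        · rw [dotProduct_smul, h3, smul_zero] }
  refine ⟨N', fun v hv => hv.1, fun v hv => hv.2, ?_⟩
  obtain ⟨Q, hQ⟩ := Submodule.exists_isCompl N
  have hNQ : Module.finrank k N + Module.finrank k Q = Fintype.card ι := by
    rw [Submodule.finrank_add_eq_of_isCompl hQ, Module.finrank_fintype_fun_eq_card]
  let bN := Module.finBasis k N
  let bQ := Module.finBasis k Q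
  -- the first map, on coordinates
  let Φ₁ := (gram N A).mulVecLin
  have h1 : (gram N A).rank + Module.finrank k (LinearMap.ker Φ₁) = Module.finrank k N := by
    have := LinearMap.finrank_range_add_finrank_ker Φ₁
    rw [Module.finrank_fintype_fun_eq_card, Fintype.card_fin] at this
    exact this
  -- the vector with given coordinates
  let vec : (Fin (Module.finrank k N) → k) →ₗ[k] (ι → k) :=
    Fintype.linearCombination k (fun j => (bN j : ι → k))
  have hvec : ∀ c, vec c = ∑ j, c j • (bN j : ι → k) := fun c => by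
    rw [Fintype.linearCombination_apply]
  have hvecN : ∀ c, vec c ∈ N := fun c => by
    rw [hvec]
    exact N.sum_mem fun j _ => N.smul_mem _ (bN j).2
  let Φ₂ : LinearMap.ker Φ₁ →ₗ[k] (Fin (Module.finrank k Q) → k) × k :=
    { toFun := fun c => (fun t => (bQ t : ι → k) ⬝ᵥ A.mulVec (vec c), l ⬝ᵥ vec c)
      map_add' := by
        intro c c'
        ext t
        · simp [Matrix.mulVec_add, dotProduct_add]
        · simp [dotProduct_add]
      map_smul' := by
        intro a c
        ext t
        · simp [Matrix.mulVec_smul, dotProduct_smul]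
        · simp [dotProduct_smul] }
  have h2 : Module.finrank k (LinearMap.ker Φ₁) ≤ Module.finrank k (LinearMap.ker Φ₂) +
      (Module.finrank k Q + 1) := by
    have h3 := LinearMap.finrank_range_add_finrank_ker Φ₂
    have h4 : Module.finrank k (LinearMap.range Φ₂) ≤ Module.finrank k Q + 1 := by
      refine (Submodule.finrank_le _).trans ?_
      rw [Module.finrank_prod, Module.finrank_fintype_fun_eq_card, Fintype.card_fin,
        Module.finrank_self]
    omega
  have hΦ₁ : ∀ c j, Φ₁ c j = (bN j : ι → k) ⬝ᵥ A.mulVec (vec c) := by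
    intro c j
    rw [hvec, Matrix.mulVec_sum, dotProduct_sum]
    change ∑ j', gram N A j j' * c j' = _
    refine Finset.sum_congr rfl fun j' _ => ?_
    rw [Matrix.mulVec_smul, dotProduct_smul, smul_eq_mul, mul_comm]
    rfl
  have h5 : ∀ c : LinearMap.ker Φ₂, vec c ∈ N' := by
    intro c
    have hc1 : Φ₁ (c : LinearMap.ker Φ₁) = 0 := (c : LinearMap.ker Φ₁).2
    have hc2 : Φ₂ c = 0 := c.2
    have hc3 : ∀ t, (bQ t : ι → k) ⬝ᵥ A.mulVec (vec c) = 0 := fun t =>
      congrFun (congrArg Prod.fst hc2) t
    have hc4 : l ⬝ᵥ vec c = 0 := congrArg Prod.snd hc2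
    refine ⟨hvecN _, ?_, hc4⟩
    have h6 : ∀ v : ι → k, v ⬝ᵥ A.mulVec (vec c) = 0 := by
      intro v
      have h7 : v ∈ N ⊔ Q := by rw [hQ.sup_eq_top]; trivial
      obtain ⟨v1, hv1, v2, hv2, rfl⟩ := Submodule.mem_sup.1 h7
      rw [add_dotProduct]
      have h8 : v1 ⬝ᵥ A.mulVec (vec c) = 0 := by
        have h9 := congrArg (fun w : N => (w : ι → k)) (bN.sum_repr ⟨v1, hv1⟩)
        simp only [AddSubmonoidClass.coe_finsetSum, SetLike.val_smul] at h9
        rw [← h9, sum_dotProduct]
        refine Finset.sum_eq_zero fun j _ => ?_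
        rw [smul_dotProduct, ← hΦ₁, hc1]
        simp
      have h10 : v2 ⬝ᵥ A.mulVec (vec c) = 0 := by
        have h9 := congrArg (fun w : Q => (w : ι → k)) (bQ.sum_repr ⟨v2, hv2⟩)
        simp only [AddSubmonoidClass.coe_finsetSum, SetLike.val_smul] at h9
        rw [← h9, sum_dotProduct]
        refine Finset.sum_eq_zero fun j _ => ?_
        rw [smul_dotProduct, hc3]
        simp
      rw [h8, h10, add_zero]
    funext i
    have := h6 (Pi.single i 1)
    rwa [single_one_dotProduct] at this
  have h11 : Module.finrank k (LinearMap.ker Φ₂) ≤ Module.finrank k N' := by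
    let f : LinearMap.ker Φ₂ →ₗ[k] N' :=
      { toFun := fun c => ⟨vec c, h5 c⟩
        map_add' := fun c c' => Subtype.ext (map_add vec _ _)
        map_smul' := fun a c => Subtype.ext (map_smul vec a _) }
    refine LinearMap.finrank_le_finrank_of_injective (f := f) ?_
    intro c c' hcc
    have h12 : vec c = vec c' := congrArg Subtype.val hcc
    have h13 : Function.Injective vec := by
      have hli : LinearIndependent k (fun j => (bN j : ι → k)) :=
        bN.linearIndependent.map' N.subtype (by simp)
      exact linearIndependent_iff_injective_fintypeLinearCombination.1 hli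
    exact Subtype.ext (Subtype.ext (h13 h12))
  omega

/-- regularisation -/
theorem reg (A : κ → Matrix ι ι k) (l : κ → ι → k) (R : ℕ) :
    ∃ N : Submodule k (ι → k),
      Fintype.card ι ≤ Module.finrank k N + (2 ^ Fintype.card κ - 1) * R ∧
      ∀ u, u ∉ inv A l N → R ≤ (gram N (∑ i, u i • A i)).rank := by
  classical
  have key : ∀ t : ℕ, ∃ N : Submodule k (ι → k),
      Fintype.card ι ≤ Module.finrank k N + (2 ^ t - 1) * R ∧
      ((∀ u, u ∉ inv A l N → R ≤ (gram N (∑ i, u i • A i)).rank) ∨
        t ≤ Module.finrank k (inv A l N)) := by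
    intro t
    induction t with
    | zero =>
      exact ⟨⊤, by rw [finrank_top, Module.finrank_fintype_fun_eq_card]; omega,
        Or.inr (Nat.zero_le _)⟩
    | succ t ih =>
      obtain ⟨N, hN, h⟩ := ih
      have hpow : 1 ≤ 2 ^ t := Nat.one_le_two_pow
      have hmono : (2 ^ t - 1) * R ≤ (2 ^ (t + 1) - 1) * R := by
        apply Nat.mul_le_mul_right
        rw [pow_succ]; omega
      by_cases hreg : ∀ u, u ∉ inv A l N → R ≤ (gram N (∑ i, u i • A i)).rank
      · exact ⟨N, by omega, Or.inl hreg⟩
      · have ht : t ≤ Module.finrank k (inv A l N) := h.resolve_left hreg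
        push Not at hreg
        obtain ⟨u, hu, hlt⟩ := hreg
        obtain ⟨N', hN'N, hN', hfin⟩ := reg_step _ (∑ i, u i • l i) N R hlt
        refine ⟨N', ?_, Or.inr ?_⟩
        · have h1 : (2 ^ (t + 1) - 1) * R = 2 * ((2 ^ t - 1) * R) + R := by
            have h2 : 2 ^ (t + 1) - 1 = 2 * (2 ^ t - 1) + 1 := by rw [pow_succ]; omega
            rw [h2, add_mul, one_mul, mul_assoc]
          omega
        · have h3 : inv A l N < inv A l N' := by
            refine lt_of_le_of_ne (fun u' hu' v hv => hu' v (hN'N hv)) ?_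
            intro heq
            apply hu
            rw [heq]
            exact hN'
          have := Submodule.finrank_lt_finrank_of_lt h3
          omega
  obtain ⟨N, hN, h⟩ := key (Fintype.card κ)
  refine ⟨N, hN, ?_⟩
  rcases h with h | h
  · exact h
  · intro u hu
    exfalso
    apply hu
    have h1 : inv A l N = ⊤ := by
      apply Submodule.eq_top_of_finrank_eq
      rw [Module.finrank_fintype_fun_eq_card]
      refine le_antisymm ?_ h
      have := Submodule.finrank_le (inv A l N)
      rwa [Module.finrank_fintype_fun_eq_card] at this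
    rw [h1]
    trivial

end Pool.Agent.Helper66.FQ
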