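import Pool.Agent.Helper66.FQ.Elim
import Pool.Agent.Helper66.FQ.Reg
import Pool.Agent.Helper45.FQ.LinElim

/-! The main theorem in terms of generic points. -/

set_option autoImplicit false

namespace Pool.Agent.Helper66.FQ

open MvPolynomial

theorem quad_inl {k : Type} [Field k] {σ τ : Type} [Fintype σ] [Fintype τ]
    (A : Matrix (σ ⊕ τ) (σ ⊕ τ) k) (l : σ ⊕ τ → k) (c : k) (h1 : ∀ p t, A p (Sum.inr t) = 0)
    (h2 : ∀ t p, A (Sum.inr t) p = 0) (h3 : ∀ t, l (Sum.inr t) = 0) :
    quad A l c = rename Sum.inl (quad (A.submatrix Sum.inl Sum.inl) (l ∘ Sum.inl) c) := by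
  simp only [quad, map_add, map_sum, map_mul, rename_C, rename_X, Matrix.submatrix_apply,
    Function.comp, Fintype.sum_sum_type, h1, h2, h3, map_zero, zero_mul, Finset.sum_const_zero,
    add_zero]

/-- recombination of a family -/
theorem span_comb {k B : Type} [Field k] [CommRing B] [Algebra k B] {κ κ' : Type} [Fintype κ]
    [Fintype κ'] [DecidableEq κ] (ub : Module.Basis κ' k (κ → k)) (q : κ → B) :
    Ideal.span (Set.range fun j => ∑ i, ub j i • q i) = Ideal.span (Set.range q) := by
  apply le_antisymm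
  · rw [Ideal.span_le]
    rintro _ ⟨j, rfl⟩
    refine sum_mem fun i _ => ?_
    exact Submodule.smul_of_tower_mem _ (ub j i) (Ideal.subset_span ⟨i, rfl⟩)
  · rw [Ideal.span_le]
    rintro _ ⟨i, rfl⟩
    have h1 : q i = ∑ j, ub.repr (Pi.single i 1) j • ∑ i', ub j i' • q i' := by
      simp only [Finset.smul_sum, smul_smul]
      rw [Finset.sum_comm, Finset.sum_eq_single i]
      · rw [← Finset.sum_smul, sum_repr ub i i, if_pos rfl, one_smul]
      · intro i' _ hi'
        rw [← Finset.sum_smul, sum_repr ub i i', if_neg (Ne.symm hi'), zero_smul]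
      · simp
    rw [h1]
    refine sum_mem fun j _ => ?_
    exact Submodule.smul_of_tower_mem _ _ (Ideal.subset_span ⟨j, rfl⟩)

/-- a basis adapted to a pair of complementary subspaces -/
theorem exists_adapted {k ι : Type} [Field k] [Fintype ι] (Q N : Submodule k (ι → k))
    (h : IsCompl Q N) : ∃ b : Module.Basis
      (Fin (Module.finrank k Q) ⊕ Fin (Module.finrank k N)) k (ι → k),
      (∀ i, b (Sum.inl i) = (Module.finBasis k Q i : ι → k)) ∧
      ∀ i, b (Sum.inr i) = (Module.finBasis k N i : ι → k) := by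
  refine ⟨((Module.finBasis k Q).prod (Module.finBasis k N)).map
    (Submodule.prodEquivOfIsCompl Q N h), fun i => ?_, fun i => ?_⟩
  · simp [Module.Basis.map_apply]
  · simp [Module.Basis.map_apply]

theorem main {k L : Type} [Field k] [IsAlgClosed k] [Field L] [Algebra k L] (h2 : (2 : k) ≠ 0)
    {n r : ℕ} (q : Fin r → MvPolynomial (Fin n) k) (hq : ∀ i, (q i).totalDegree ≤ 2)
    (x : Fin n → L) (hP : RingHom.ker (aeval x : MvPolynomial (Fin n) k →ₐ[k] L) ∈
      (Ideal.span (Set.range q)).minimalPrimes) :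
    ∃ (s a : ℕ) (ℓ : Fin s → Fin n → k) (F : Fin a → MvPolynomial (Fin s) k),
      s ≤ (2 ^ r - 1) * (r * (2 * r + 3)) ∧ a ≤ r ∧ LinearIndependent k ℓ ∧
      (∀ i, (F i).totalDegree ≤ 2) ∧
      (∀ i, aeval (fun j => ∑ c, C (ℓ j c) * X c) (F i) ∈ Submodule.span k (Set.range q)) ∧
      RingHom.ker (aeval (fun j => ∑ c, algebraMap k L (ℓ j c) * x c) :
        MvPolynomial (Fin s) k →ₐ[k] L) ∈ (Ideal.span (Set.range F)).minimalPrimes ∧
      ∃ (m : ℕ) (t : Fin m → L), AlgebraicIndependent
          (IntermediateField.adjoin k (Set.range fun j => ∑ c, algebraMap k L (ℓ j c) * x c)) t ∧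
        IntermediateField.adjoin k (Set.range x) = IntermediateField.adjoin k
          (Set.range (fun j => ∑ c, algebraMap k L (ℓ j c) * x c) ∪ Set.range t) := by
  classical
  have DL : DimLower := Pool.Agent.Helper45.FQ.dimLower
  have LE : LinElim := Pool.Agent.Helper45.FQ.linElim DL
  choose A l c hA hqA using fun i => exists_quad h2 (q i) (hq i)
  set R := r * (2 * r + 3) with hRdef
  obtain ⟨N, hN, hreg⟩ := reg A l R
  rw [Fintype.card_fin, Fintype.card_fin] at hN
  obtain ⟨Q, hQN⟩ := Submodule.exists_isCompl N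
  have hQN := hQN.symm
  obtain ⟨b, hbl, hbr⟩ := exists_adapted Q N hQN
  have hdim : Module.finrank k Q + Module.finrank k N = n := by
    rw [Submodule.finrank_add_eq_of_isCompl hQN, Module.finrank_fintype_fun_eq_card,
      Fintype.card_fin]
  -- the coefficients
  obtain ⟨Λ₁, hΛ⟩ := Submodule.exists_isCompl (inv A l N)
  obtain ⟨ub, hul, hur⟩ := exists_adapted (inv A l N) Λ₁ hΛ
  have hdim2 : Module.finrank k (inv A l N) + Module.finrank k Λ₁ = r := by
    rw [Submodule.finrank_add_eq_of_isCompl hΛ, Module.finrank_fintype_fun_eq_card,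
      Fintype.card_fin]
  let s := Module.finrank k Q
  let a := Module.finrank k (inv A l N)
  let ρ := Module.finrank k Λ₁
  have hs : s = Module.finrank k Q := rfl
  have ha : a = Module.finrank k (inv A l N) := rfl
  have hρ : ρ = Module.finrank k Λ₁ := rfl
  let A1 : Fin a ⊕ Fin ρ → Matrix (Fin n) (Fin n) k := fun j => ∑ i, ub j i • A i
  let l1 : Fin a ⊕ Fin ρ → Fin n → k := fun j => ∑ i, ub j i • l i
  let c1 : Fin a ⊕ Fin ρ → k := fun j => ∑ i, ub j i * c i
  let q1 : Fin a ⊕ Fin ρ → MvPolynomial (Fin n) k := fun j => ∑ i, ub j i • q i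
  have hq1 : ∀ j, q1 j = quad (A1 j) (l1 j) (c1 j) := by
    intro j
    simp only [q1, A1, l1, c1, hqA]
    exact quad_comb _ _ _ _
  have hA1 : ∀ j, (A1 j).IsSymm := by
    intro j
    ext p p'
    simp only [A1, Matrix.transpose_apply, Matrix.sum_apply, Matrix.smul_apply]
    refine Finset.sum_congr rfl fun i _ => ?_
    rw [(hA i).apply p p']
  have hP1 : RingHom.ker (aeval x : MvPolynomial (Fin n) k →ₐ[k] L) ∈
      (Ideal.span (Set.range q1)).minimalPrimes := by
    rw [span_comb ub q]
    exact hP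
  have hmin := minimal_subst b x q1 hP1
  let y := newPt b x
  -- the equations in the new coordinates
  let A2 : Fin a ⊕ Fin ρ → Matrix (Fin s ⊕ Fin (Module.finrank k N))
    (Fin s ⊕ Fin (Module.finrank k N)) k := fun j =>
      Matrix.of fun p p' => b p ⬝ᵥ (A1 j).mulVec (b p')
  let l2 : Fin a ⊕ Fin ρ → Fin s ⊕ Fin (Module.finrank k N) → k := fun j p => l1 j ⬝ᵥ b p
  have hA2 : ∀ j, (A2 j).IsSymm := by
    intro j
    ext p p'
    simp only [Matrix.transpose_apply, A2, Matrix.of_apply]
    rw [Matrix.dotProduct_mulVec, ← Matrix.mulVec_transpose, (hA1 j).eq, dotProduct_comm]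
  have hsub : ∀ j, subst b (q1 j) = quad (A2 j) (l2 j) (c1 j) := by
    intro j
    rw [hq1, subst_quad]
  let F : Fin a → MvPolynomial (Fin s) k := fun i =>
    quad ((A2 (Sum.inl i)).submatrix Sum.inl Sum.inl) (l2 (Sum.inl i) ∘ Sum.inl) (c1 (Sum.inl i))
  have hinv : ∀ i, ∀ v ∈ N, (A1 (Sum.inl i)).mulVec v = 0 ∧ l1 (Sum.inl i) ⬝ᵥ v = 0 := by
    intro i
    have h1 : ub (Sum.inl i) ∈ inv A l N := by rw [hul]; exact SetLike.coe_mem _
    exact h1
  have hbN : ∀ t, b (Sum.inr t) ∈ N := fun t => by rw [hbr]; exact SetLike.coe_mem _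
  have hFr : ∀ i, subst b (q1 (Sum.inl i)) = rename Sum.inl (F i) := by
    intro i
    rw [hsub]
    refine quad_inl _ _ _ ?_ ?_ ?_
    · intro p t
      simp only [A2, Matrix.of_apply]
      rw [(hinv i _ (hbN t)).1, dotProduct_zero]
    · intro t p
      rw [(hA2 (Sum.inl i)).apply]
      simp only [A2, Matrix.of_apply]
      rw [(hinv i _ (hbN t)).1, dotProduct_zero]
    · intro t
      exact (hinv i _ (hbN t)).2
  have hfun : (fun j => subst b (q1 j)) = Sum.elim (fun i => rename Sum.inl (F i))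
      (fun i => quad (A2 (Sum.inr i)) (l2 (Sum.inr i)) (c1 (Sum.inr i))) := by
    funext j
    rcases j with j | j
    · exact hFr j
    · exact hsub _
  rw [hfun] at hmin
  have hrank : ∀ u : Fin ρ → k, u ≠ 0 → R ≤ (∑ i, u i • (A2 (Sum.inr i)).toBlocks₂₂).rank := by
    intro u hu
    have h1 : ∑ i, u i • ub (Sum.inr i) ∉ inv A l N := by
      intro hmem
      have h2 : ∑ i, u i • ub (Sum.inr i) ∈ Λ₁ := by
        refine Submodule.sum_mem _ fun i _ => Submodule.smul_mem _ _ ?_
        rw [hur]
        exact SetLike.coe_mem _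
      have h3 : ∑ i, u i • ub (Sum.inr i) = 0 := by
        have := hΛ.disjoint.le_bot ⟨hmem, h2⟩
        exact (Submodule.mem_bot k).1 this
      have h4 : LinearIndependent k (fun i : Fin ρ => ub (Sum.inr i)) :=
        ub.linearIndependent.comp _ Sum.inr_injective
      rw [Fintype.linearIndependent_iff] at h4
      exact hu (funext (h4 u h3))
    have h5 := hreg _ h1
    have h6 : ∑ i, u i • (A2 (Sum.inr i)).toBlocks₂₂ =
        gram N (∑ j, (∑ i, u i • ub (Sum.inr i)) j • A j) := by
      ext t t'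
      have h7 : ∑ j, (∑ i, u i • ub (Sum.inr i)) j • A j = ∑ i, u i • A1 (Sum.inr i) := by
        simp only [A1, Finset.sum_apply, Pi.smul_apply, smul_eq_mul, Finset.smul_sum,
          Finset.sum_smul, smul_smul]
        exact Finset.sum_comm
      rw [h7]
      simp only [gram, Matrix.sum_apply, Matrix.smul_apply, Matrix.toBlocks₂₂, A2,
        Matrix.of_apply, Matrix.sum_mulVec, Matrix.smul_mulVec, dotProduct_sum, dotProduct_smul,
        hbr]
    rw [h6]
    exact h5
  have hcard : Fintype.card (Fin ρ) + (Fintype.card (Fin ρ) + 1) * (2 * Fintype.card (Fin ρ)) ≤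
      R + 1 := by
    rw [Fintype.card_fin]
    have hρr : ρ ≤ r := by omega
    have h1 : ρ + (ρ + 1) * (2 * ρ) = ρ * (2 * ρ + 3) := by ring
    have h3 : ρ * (2 * ρ + 3) ≤ r * (2 * r + 3) := Nat.mul_le_mul hρr (by omega)
    omega
  obtain ⟨h5, m, t, h6, h7⟩ := stageB DL LE h2 F (fun i => A2 (Sum.inr i)) (fun i => hA2 _)
    (fun i => l2 (Sum.inr i)) (fun i => c1 (Sum.inr i)) y hmin R hrank hcard
  refine ⟨s, a, fun j i => b.repr (Pi.single i 1) (Sum.inl j), F, ?_, by omega, ?_, ?_, ?_, h5,
    m, t, h6, ?_⟩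
  · omega
  · rw [Fintype.linearIndependent_iff]
    intro g hg j
    have h8 := congrArg (fun w => ∑ i, b (Sum.inl j) i * w i) hg
    simp only [Finset.sum_apply, Pi.smul_apply, smul_eq_mul, Pi.zero_apply, mul_zero,
      Finset.sum_const_zero, Finset.mul_sum] at h8
    rw [Finset.sum_comm, Finset.sum_eq_single j] at h8
    · have h9 := repr_sum b (Sum.inl j) (Sum.inl j)
      rw [if_pos rfl] at h9
      have h10 : ∑ i, b (Sum.inl j) i * (g j * b.repr (Pi.single i 1) (Sum.inl j)) =
          g j * ∑ i, b (Sum.inl j) i * b.repr (Pi.single i 1) (Sum.inl j) := by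
        rw [Finset.mul_sum]
        exact Finset.sum_congr rfl fun i _ => by ring
      rw [h10, h9, mul_one] at h8
      exact h8
    · intro j' _ hj'
      have h9 := repr_sum b (Sum.inl j') (Sum.inl j)
      rw [if_neg (by simpa using Ne.symm hj')] at h9
      have h10 : ∑ i, b (Sum.inl j) i * (g j' * b.repr (Pi.single i 1) (Sum.inl j')) =
          g j' * ∑ i, b (Sum.inl j) i * b.repr (Pi.single i 1) (Sum.inl j') := by
        rw [Finset.mul_sum]
        exact Finset.sum_congr rfl fun i _ => by ring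
      rw [h10, h9, mul_zero]
    · simp
  · exact fun i => totalDegree_quad _ _ _
  · intro i
    have h8 : aeval (fun j => ∑ c, C (b.repr (Pi.single c 1) (Sum.inl j)) * X c) (F i) =
        q1 (Sum.inl i) := by
      have h9 : (substEquiv b).symm (rename Sum.inl (F i)) = q1 (Sum.inl i) := by
        rw [← hFr i]
        exact (substEquiv b).symm_apply_apply _
      rw [← h9]
      have h10 : ((substEquiv b).symm.toAlgHom).comp
          (rename Sum.inl) = aeval (fun j => ∑ c, C (b.repr (Pi.single c 1) (Sum.inl j)) * X c) := by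
        apply MvPolynomial.algHom_ext
        intro j
        simp only [AlgHom.comp_apply, rename_X, aeval_X]
        change subst (fun i j => b.repr (Pi.single i 1) j) (X (Sum.inl j)) = _
        simp only [subst, aeval_X]
      exact (congrArg (fun f => f (F i)) h10).symm
    rw [h8]
    refine Submodule.sum_mem _ fun i' _ => Submodule.smul_mem _ _ (Submodule.subset_span ⟨i', rfl⟩)
  · rw [← adjoin_newPt b x]
    exact h7

end Pool.Agent.Helper66.FQ
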