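import Mathlib

/-! Purely transcendental extensions. -/

set_option autoImplicit false

namespace Pool.Agent.Helper66.FQ

open MvPolynomial IntermediateField

/-- the field `k(t₁, …, tₙ)` -/
abbrev RF (n : ℕ) (k : Type) [Field k] : Type := FractionRing (MvPolynomial (Fin n) k)

/-- `L` is purely transcendental over `k`, with `n` variables -/
def PT (n : ℕ) (k L : Type) [Field k] [Field L] [Algebra k L] : Prop :=
  ∃ t : Fin n → L, AlgebraicIndependent k t ∧ adjoin k (Set.range t) = ⊤

theorem PT.congr {n : ℕ} {k L L' : Type} [Field k] [Field L] [Field L'] [Algebra k L]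
    [Algebra k L'] (e : L ≃ₐ[k] L') (h : PT n k L) : PT n k L' := by
  obtain ⟨t, ht, hg⟩ := h
  refine ⟨fun i => e (t i), ht.map' (f := e.toAlgHom) e.injective, ?_⟩
  have h1 : (adjoin k (Set.range t)).map e.toAlgHom = adjoin k (Set.range fun i => e (t i)) := by
    rw [adjoin_map, ← Set.range_comp]
    rfl
  rw [← h1, hg, ← AlgHom.fieldRange_eq_map]
  rw [AlgHom.fieldRange_eq_top]
  exact e.surjective

theorem PT.of_isFractionRing (n : ℕ) (k K : Type) [Field k] [Field K]
    [Algebra (MvPolynomial (Fin n) k) K] [IsFractionRing (MvPolynomial (Fin n) k) K] [Algebra k K]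
    [IsScalarTower k (MvPolynomial (Fin n) k) K] : PT n k K := by
  have hinj : Function.Injective (IsScalarTower.toAlgHom k (MvPolynomial (Fin n) k) K) :=
    IsFractionRing.injective (MvPolynomial (Fin n) k) K
  have h1 := (MvPolynomial.algebraicIndependent_X (Fin n) k).map' hinj
  refine ⟨fun i => algebraMap (MvPolynomial (Fin n) k) K (X i), h1, ?_⟩
  rw [eq_top_iff]
  intro z _
  obtain ⟨a, b, hb, rfl⟩ := IsFractionRing.div_surjective (A := MvPolynomial (Fin n) k) z
  have h3 : ∀ p : MvPolynomial (Fin n) k, algebraMap _ K p ∈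
      adjoin k (Set.range fun i => algebraMap (MvPolynomial (Fin n) k) K (X i)) := by
    intro p
    have h4 : algebraMap (MvPolynomial (Fin n) k) K p =
        aeval (fun i => algebraMap (MvPolynomial (Fin n) k) K (X i)) p := by
      have : (IsScalarTower.toAlgHom k (MvPolynomial (Fin n) k) K) =
          aeval (fun i => algebraMap (MvPolynomial (Fin n) k) K (X i)) := by
        apply MvPolynomial.algHom_ext
        intro i
        simp
      exact congrArg (fun f => f p) this
    rw [h4]
    have h5 : aeval (fun i => algebraMap (MvPolynomial (Fin n) k) K (X i)) p ∈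
        Algebra.adjoin k (Set.range fun i => algebraMap (MvPolynomial (Fin n) k) K (X i)) := by
      rw [Algebra.adjoin_range_eq_range_aeval]
      exact ⟨p, rfl⟩
    exact algebra_adjoin_le_adjoin _ _ h5
  exact div_mem (h3 a) (h3 b)

theorem PT.rf (n : ℕ) (k : Type) [Field k] : PT n k (RF n k) :=
  PT.of_isFractionRing n k (RF n k)

theorem PT.equiv {n : ℕ} {k L : Type} [Field k] [Field L] [Algebra k L] (h : PT n k L) :
    Nonempty (L ≃ₐ[k] RF n k) := by
  obtain ⟨t, ht, hg⟩ := h
  exact ⟨(topEquiv.symm.trans (equivOfEq hg.symm)).trans ht.aevalEquivField.symm⟩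

theorem PT.iff {n : ℕ} {k L : Type} [Field k] [Field L] [Algebra k L] :
    PT n k L ↔ Nonempty (L ≃ₐ[k] RF n k) :=
  ⟨PT.equiv, fun ⟨e⟩ => (PT.rf n k).congr e.symm⟩

theorem PT.trans {n m : ℕ} {k K L : Type} [Field k] [Field K] [Field L] [Algebra k K]
    [Algebra K L] [Algebra k L] [IsScalarTower k K L] (h1 : PT n k K) (h2 : PT m K L) :
    PT (m + n) k L := by
  obtain ⟨s, hs, hsg⟩ := h1
  obtain ⟨t, ht, htg⟩ := h2
  have h3 := AlgebraicIndependent.sumElim_comp hs ht
  let w : Fin m ⊕ Fin n → L := Sum.elim t (algebraMap K L ∘ s)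
  refine ⟨w ∘ finSumFinEquiv.symm, h3.comp _ finSumFinEquiv.symm.injective, ?_⟩
  rw [EquivLike.range_comp]
  -- the intermediate field contains `K` and `t`
  set E := adjoin k (Set.range w) with hE
  have hK : ∀ z : K, algebraMap K L z ∈ E := by
    intro z
    have h4 : (adjoin k (Set.range s)).map (IsScalarTower.toAlgHom k K L) ≤ E := by
      rw [adjoin_map, adjoin_le_iff]
      rintro _ ⟨_, ⟨i, rfl⟩, rfl⟩
      exact subset_adjoin _ _ ⟨Sum.inr i, rfl⟩
    rw [hsg] at h4
    exact h4 ⟨z, trivial, rfl⟩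
  let E' : IntermediateField K L :=
    { E.toSubfield with
      algebraMap_mem' := hK }
  have h5 : adjoin K (Set.range t) ≤ E' := by
    rw [adjoin_le_iff]
    rintro _ ⟨i, rfl⟩
    exact subset_adjoin k _ ⟨Sum.inl i, rfl⟩
  rw [htg] at h5
  rw [eq_top_iff]
  intro z _
  exact h5 (show z ∈ (⊤ : IntermediateField K L) from trivial)

/-- the map of rational function fields -/
theorem exists_map_aux {n : ℕ} {k K M K' M' : Type} [Field k] [Field K] [Field M] [Algebra k K]
    [Algebra k M] [Field K'] [Field M'] [Algebra (MvPolynomial (Fin n) K) K']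
    [IsFractionRing (MvPolynomial (Fin n) K) K'] [Algebra (MvPolynomial (Fin n) M) M']
    [IsFractionRing (MvPolynomial (Fin n) M) M'] [Algebra k K'] [Algebra k M']
    [IsScalarTower k (MvPolynomial (Fin n) K) K'] [IsScalarTower k (MvPolynomial (Fin n) M) M']
    (f : K →ₐ[k] M) : Nonempty (K' →ₐ[k] M') := by
  let g : MvPolynomial (Fin n) K →ₐ[k] M' :=
    (IsScalarTower.toAlgHom k (MvPolynomial (Fin n) M) M').comp (mapAlgHom f)
  have hg : Function.Injective g := by
    intro a b hab
    have h1 := IsFractionRing.injective (MvPolynomial (Fin n) M) M' hab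
    exact map_injective (f : K →+* M) f.injective h1
  exact ⟨IsFractionRing.liftAlgHom (K := K') hg⟩

theorem exists_rf_map {n : ℕ} {k K M : Type} [Field k] [Field K] [Field M] [Algebra k K]
    [Algebra k M] (f : K →ₐ[k] M) : Nonempty (RF n K →ₐ[k] RF n M) :=
  exists_map_aux (n := n) f

/-- unirationality of `K(t₁, …, tₘ)` -/
theorem uni_iff {m : ℕ} {k K L : Type} [Field k] [Field K] [Field L] [Algebra k K]
    [Algebra K L] [Algebra k L] [IsScalarTower k K L] (h : PT m K L) :
    (∃ d, Nonempty (L →ₐ[k] RF d k)) ↔ ∃ d, Nonempty (K →ₐ[k] RF d k) := by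
  constructor
  · rintro ⟨d, ⟨f⟩⟩
    exact ⟨d, ⟨f.comp (IsScalarTower.toAlgHom k K L)⟩⟩
  · rintro ⟨d, ⟨f⟩⟩
    obtain ⟨e⟩ := h.equiv
    obtain ⟨g⟩ := exists_rf_map (n := m) f
    obtain ⟨e'⟩ := ((PT.rf d k).trans (PT.rf m (RF d k))).equiv
    exact ⟨m + d, ⟨(e'.toAlgHom.comp g).comp (e.restrictScalars k).toAlgHom⟩⟩

/-- stable rationality of `K(t₁, …, tₘ)` -/
theorem sr_iff {m : ℕ} {k K L : Type} [Field k] [Field K] [Field L] [Algebra k K]
    [Algebra K L] [Algebra k L] [IsScalarTower k K L] (h : PT m K L) :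
    (∃ m' d, Nonempty (RF m' L ≃ₐ[k] RF d k)) ↔ ∃ m' d, Nonempty (RF m' K ≃ₐ[k] RF d k) := by
  constructor
  · rintro ⟨m', d, ⟨f⟩⟩
    obtain ⟨e⟩ := (h.trans (PT.rf m' L)).equiv
    exact ⟨m' + m, d, ⟨(e.restrictScalars k).symm.trans f⟩⟩
  · rintro ⟨m', d, ⟨f⟩⟩
    have h1 : PT d k (RF m' K) := PT.iff.2 ⟨f⟩
    obtain ⟨e⟩ := (h.trans (PT.rf m' L)).equiv
    obtain ⟨e'⟩ := ((PT.rf m' K).trans (PT.rf m (RF m' K))).equiv
    obtain ⟨e''⟩ := (h1.trans (PT.rf m (RF m' K))).equiv
    rw [add_comm m m'] at e'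
    exact ⟨m', m + d, ⟨((e.trans e'.symm).restrictScalars k).trans e''⟩⟩

/-- rationality of `K(t₁, …, tₘ)` -/
theorem rat_of {m : ℕ} {k K L : Type} [Field k] [Field K] [Field L] [Algebra k K]
    [Algebra K L] [Algebra k L] [IsScalarTower k K L] (h : PT m K L)
    (h1 : ∃ d, Nonempty (K ≃ₐ[k] RF d k)) : ∃ d, Nonempty (L ≃ₐ[k] RF d k) := by
  obtain ⟨d, hd⟩ := h1
  exact ⟨m + d, ((PT.iff.2 hd).trans h).equiv⟩

/-- change of the base field -/
theorem pt_over {k L FF : Type} [Field k] [Field L] [Field FF] [Algebra k L] [Algebra k FF]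
    [Algebra FF L] [IsScalarTower k FF L] {s m : ℕ} (u : Fin s → L) (v : Fin s → FF)
    (hv : ∀ j, algebraMap FF L (v j) = u j) (hvg : adjoin k (Set.range v) = ⊤) (t : Fin m → L)
    (ht : AlgebraicIndependent (adjoin k (Set.range u)) t)
    (hg : adjoin k (Set.range u ∪ Set.range t) = ⊤) : PT m FF L := by
  have hmem : ∀ z : FF, algebraMap FF L z ∈ adjoin k (Set.range u) := by
    intro z
    have h4 : (adjoin k (Set.range v)).map (IsScalarTower.toAlgHom k FF L) ≤
        adjoin k (Set.range u) := by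
      rw [adjoin_map, adjoin_le_iff]
      rintro _ ⟨_, ⟨i, rfl⟩, rfl⟩
      exact subset_adjoin _ _ ⟨i, (hv i).symm⟩
    rw [hvg] at h4
    exact h4 ⟨z, trivial, rfl⟩
  let f : FF →+* adjoin k (Set.range u) := (algebraMap FF L).codRestrict _ hmem
  have h1 : AlgebraicIndependent FF t :=
    AlgebraicIndependent.of_ringHom_of_comp_eq f (RingHom.id L) (x := t) ht f.injective rfl
  refine ⟨t, h1, ?_⟩
  have h2 : adjoin k (Set.range u ∪ Set.range t) ≤
      (adjoin FF (Set.range t)).restrictScalars k := by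
    rw [adjoin_le_iff]
    rintro _ (⟨i, rfl⟩ | ⟨i, rfl⟩)
    · change u i ∈ adjoin FF (Set.range t)
      rw [← hv]
      exact IntermediateField.algebraMap_mem _ _
    · exact subset_adjoin FF _ ⟨i, rfl⟩
  rw [hg] at h2
  rw [eq_top_iff]
  intro z _
  exact h2 (show z ∈ (⊤ : IntermediateField k L) from trivial)

/-- the function field is generated by the coordinates -/
theorem gen_quot {k K A : Type} [Field k] [Field K] [CommRing A] [Algebra k A] [Algebra A K]
    [IsFractionRing A K] [Algebra k K] [IsScalarTower k A K] {s : ℕ} (x : Fin s → A)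
    (hx : Algebra.adjoin k (Set.range x) = ⊤) :
    adjoin k (Set.range fun j => algebraMap A K (x j)) = ⊤ := by
  rw [eq_top_iff]
  intro z _
  obtain ⟨a, b, hb, rfl⟩ := IsFractionRing.div_surjective (A := A) z
  have h3 : ∀ p : A, algebraMap A K p ∈ adjoin k (Set.range fun j => algebraMap A K (x j)) := by
    intro p
    have h4 : p ∈ Algebra.adjoin k (Set.range x) := by rw [hx]; trivial
    rw [Algebra.adjoin_range_eq_range_aeval] at h4
    obtain ⟨g, hg⟩ := h4
    have h5 : algebraMap A K p = aeval (fun j => algebraMap A K (x j)) g := by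
      rw [← hg]
      have : (IsScalarTower.toAlgHom k A K).comp (aeval x) =
          aeval (fun j => algebraMap A K (x j)) := by
        apply MvPolynomial.algHom_ext
        intro i
        simp
      exact congrArg (fun f => f g) this
    rw [h5]
    have h6 : aeval (fun j => algebraMap A K (x j)) g ∈
        Algebra.adjoin k (Set.range fun j => algebraMap A K (x j)) := by
      rw [Algebra.adjoin_range_eq_range_aeval]
      exact ⟨g, rfl⟩
    exact algebra_adjoin_le_adjoin _ _ h6
  exact div_mem (h3 a) (h3 b)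

end Pool.Agent.Helper66.FQ
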