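import Mathlib

/-! Specialisation of points to an algebraically closed field. -/

set_option autoImplicit false

namespace Pool.Agent.Helper66.FQ

open MvPolynomial

/-- a finitely generated algebra over an algebraically closed field has a point -/
theorem exists_point (k A : Type*) [Field k] [IsAlgClosed k] [CommRing A] [Nontrivial A]
    [Algebra k A] [Algebra.FiniteType k A] : Nonempty (A →ₐ[k] k) := by
  obtain ⟨m, hm⟩ := Ideal.exists_maximal A
  let : Field (A ⧸ m) := Ideal.Quotient.field m
  have : Module.Finite k (A ⧸ m) := finite_of_finite_type_of_isJacobsonRing k (A ⧸ m)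
  have hb := IsAlgClosed.algebraMap_bijective_of_isIntegral (k := k) (K := A ⧸ m)
  let e : k ≃ₐ[k] (A ⧸ m) := AlgEquiv.ofBijective (Algebra.ofId k (A ⧸ m)) hb
  exact ⟨(e.symm : (A ⧸ m) →ₐ[k] k).comp (Ideal.Quotient.mkₐ k m)⟩

/-- specialisation of finitely many elements of an extension field -/
theorem exists_special {k Ω : Type*} [Field k] [IsAlgClosed k] [Field Ω] [Algebra k Ω]
    (S : Set Ω) (hS : S.Finite) : Nonempty (Algebra.adjoin k S →ₐ[k] k) := by
  have : Algebra.FiniteType k (Algebra.adjoin k S) :=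
    (Subalgebra.fg_iff_finiteType _).1 ⟨hS.toFinset, by simp⟩
  exact exists_point k _

/-- the same for a system of equations without solutions over the extension field -/
theorem special_nosol {k F α Y J κ : Type*} [Field k] [IsAlgClosed k] [Field F] [IsAlgClosed F]
    [Algebra k F] [Finite α] [Fintype Y] [Finite J] [Fintype κ] (η : α → F)
    (E : J → κ → MvPolynomial (α ⊕ Y) k)
    (h : ∀ j, ¬ ∃ y : Y → F, ∀ l, aeval (Sum.elim η y) (E j l) = 0) :
    ∃ m : α → k, ∀ j, ¬ ∃ y : Y → k, ∀ l, aeval (Sum.elim m y) (E j l) = 0 := by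
  classical
  let E' : J → κ → MvPolynomial Y F := fun j l =>
    aeval (Sum.elim (fun a => (C (η a) : MvPolynomial Y F)) X) (E j l)
  have hE' : ∀ (y : Y → F) j l, aeval y (E' j l) = aeval (Sum.elim η y) (E j l) := by
    intro y j l
    have : ((aeval y : MvPolynomial Y F →ₐ[F] F).restrictScalars k).comp
        (aeval (Sum.elim (fun a => (C (η a) : MvPolynomial Y F)) X) :
          MvPolynomial (α ⊕ Y) k →ₐ[k] MvPolynomial Y F) = aeval (Sum.elim η y) := by
      apply MvPolynomial.algHom_ext
      rintro (a | a)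
      · simp
      · simp
    exact congrArg (fun f => f (E j l)) this
  have h1 : ∀ j, ∃ G : κ → MvPolynomial Y F, ∑ l, G l * E' j l = 1 := by
    intro j
    have h2 : Ideal.span (Set.range (E' j)) = ⊤ := by
      by_contra hne
      obtain ⟨m, hm, hle⟩ := Ideal.exists_le_maximal _ hne
      obtain ⟨y, hy⟩ := eq_vanishingIdeal_singleton_of_isMaximal F hm
      refine h j ⟨y, fun l => ?_⟩
      have h3 : E' j l ∈ m := hle (Ideal.subset_span ⟨l, rfl⟩)
      rw [hy, mem_vanishingIdeal_singleton_iff] at h3
      rw [← hE']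
      exact h3
    have h3 : (1 : MvPolynomial Y F) ∈ Ideal.span (Set.range (E' j)) := by
      rw [h2]; trivial
    rw [Ideal.mem_span_range_iff_exists_fun] at h3
    exact h3
  choose G hG using h1
  let S : Set F := Set.range η ∪ ⋃ j, ⋃ l, (G j l).coeffs
  have hS : S.Finite := by
    refine (Set.finite_range η).union (Set.finite_iUnion fun j => Set.finite_iUnion fun l => ?_)
    exact Finset.finite_toSet _
  obtain ⟨π⟩ := exists_special (k := k) S hS
  let A := Algebra.adjoin k S
  have hη : ∀ a, η a ∈ A := fun a => Algebra.subset_adjoin (Or.inl ⟨a, rfl⟩)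
  refine ⟨fun a => π ⟨η a, hη a⟩, fun j => ?_⟩
  rintro ⟨y, hy⟩
  -- values in `A`
  have hGA : ∀ l, aeval (fun i => algebraMap k F (y i)) (G j l) ∈ A := by
    intro l
    rw [aeval_def, eval₂_eq']
    refine Subalgebra.sum_mem _ fun d hd => ?_
    refine Subalgebra.mul_mem _ ?_ (Subalgebra.prod_mem _ fun i _ => Subalgebra.pow_mem _
      (Subalgebra.algebraMap_mem _ _) _)
    apply Algebra.subset_adjoin
    refine Or.inr (Set.mem_iUnion.2 ⟨j, Set.mem_iUnion.2 ⟨l, ?_⟩⟩)
    simp only [Algebra.algebraMap_self, RingHom.id_apply]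
    exact coeff_mem_coeffs d (mem_support_iff.1 hd)
  have hEA : ∀ l, aeval (Sum.elim η fun i => algebraMap k F (y i)) (E j l) =
      ((aeval (Sum.elim (fun a => (⟨η a, hη a⟩ : A)) (fun i => algebraMap k A (y i))) (E j l) : A)
        : F) := by
    intro l
    have : (A.val).comp (aeval (Sum.elim (fun a => (⟨η a, hη a⟩ : A))
        (fun i => algebraMap k A (y i))) : MvPolynomial (α ⊕ Y) k →ₐ[k] A) =
        aeval (Sum.elim η fun i => algebraMap k F (y i)) := by
      apply MvPolynomial.algHom_ext
      rintro (a | a)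
      · simp
      · simp
    rw [← this]; rfl
  have hπE : ∀ l, π (aeval (Sum.elim (fun a => (⟨η a, hη a⟩ : A))
      (fun i => algebraMap k A (y i))) (E j l)) = 0 := by
    intro l
    rw [← hy l]
    have : π.comp (aeval (Sum.elim (fun a => (⟨η a, hη a⟩ : A))
        (fun i => algebraMap k A (y i))) : MvPolynomial (α ⊕ Y) k →ₐ[k] A) =
        aeval (Sum.elim (fun a => π ⟨η a, hη a⟩) y) := by
      apply MvPolynomial.algHom_ext
      rintro (a | a)
      · simp
      · simp only [AlgHom.comp_apply, aeval_X, Sum.elim_inr]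
        exact π.commutes _
    rw [← this]; rfl
  have h5 : ∑ l, (⟨aeval (fun i => algebraMap k F (y i)) (G j l), hGA l⟩ : A) *
      (aeval (Sum.elim (fun a => (⟨η a, hη a⟩ : A)) (fun i => algebraMap k A (y i))) (E j l) : A)
      = 1 := by
    apply Subtype.ext
    rw [AddSubmonoidClass.coe_finsetSum]
    simp only [MulMemClass.coe_mul, OneMemClass.coe_one]
    have h6 := congrArg (aeval (fun i => algebraMap k F (y i)) : MvPolynomial Y F →ₐ[F] F) (hG j)
    rw [map_sum, map_one] at h6
    rw [← h6]
    refine Finset.sum_congr rfl fun l _ => ?_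
    rw [map_mul, hE', hEA l]
  have h7 := congrArg π h5
  rw [map_sum, map_one] at h7
  have h8 : ∀ l, π ((⟨aeval (fun i => algebraMap k F (y i)) (G j l), hGA l⟩ : A) *
      (aeval (Sum.elim (fun a => (⟨η a, hη a⟩ : A)) (fun i => algebraMap k A (y i))) (E j l) : A))
      = 0 := by
    intro l
    rw [map_mul, hπE l, mul_zero]
  rw [Finset.sum_congr rfl fun l _ => h8 l, Finset.sum_const_zero] at h7
  exact zero_ne_one h7

end Pool.Agent.Helper66.FQ
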